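import Mathlib
import Pool.Agent.Erdos456.Mertens

/-!
# Integers composed of few primes
-/

set_option autoImplicit false

namespace Pool.Agent.N43.SC

open Finset

lemma sum_E : ∃ C : ℝ, 0 ≤ C ∧ ∀ E : Finset ℕ, (∀ p ∈ E, p.Prime) → ∀ Y : ℕ, 1 ≤ Y →
    ∀ η δ : ℝ, 0 ≤ η → 0 < δ → δ + η ≤ 1 →
    ∑ p ∈ E, Real.log p * (p : ℝ) ^ (η - 1) ≤
      (Y : ℝ) ^ η * (Real.log Y + C) + E.card * ((Y : ℝ) ^ (δ + η - 1) / δ) := by
  obtain ⟨C, hC⟩ := Pool.Agent.Erdos456.Mert.mertens_log
  refine ⟨max C 0, le_max_right _ _, fun E hE Y hY η δ hη hδ hδη => ?_⟩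
  have hY0 : (0 : ℝ) < Y := by exact_mod_cast hY
  rw [← sum_filter_add_sum_filter_not E (fun p => p ≤ Y)]
  refine add_le_add ?_ ?_
  · calc ∑ p ∈ E.filter (fun p => p ≤ Y), Real.log p * (p : ℝ) ^ (η - 1)
        ≤ ∑ p ∈ E.filter (fun p => p ≤ Y), (Y : ℝ) ^ η * (Real.log p / p) := by
          refine sum_le_sum fun p hp => ?_
          rw [mem_filter] at hp
          have hp0 : (0 : ℝ) < p := by exact_mod_cast (hE p hp.1).pos
          have hp1 : (1 : ℝ) ≤ p := by exact_mod_cast (hE p hp.1).one_lt.le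
          have hpY : (p : ℝ) ≤ Y := by exact_mod_cast hp.2
          rw [Real.rpow_sub hp0, Real.rpow_one]
          have h1 : (p : ℝ) ^ η ≤ (Y : ℝ) ^ η := Real.rpow_le_rpow hp0.le hpY hη
          calc Real.log p * ((p : ℝ) ^ η / p) = (p : ℝ) ^ η * (Real.log p / p) := by ring
            _ ≤ _ := mul_le_mul_of_nonneg_right h1
              (div_nonneg (Real.log_nonneg hp1) hp0.le)
      _ = (Y : ℝ) ^ η * ∑ p ∈ E.filter (fun p => p ≤ Y), Real.log p / p := by rw [mul_sum]
      _ ≤ (Y : ℝ) ^ η * (Real.log Y + max C 0) := by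
          refine mul_le_mul_of_nonneg_left ?_ (by positivity)
          have h2 := (abs_le.1 (hC Y hY)).2
          have h3 : ∑ p ∈ E.filter (fun p => p ≤ Y), Real.log p / p ≤
              ∑ p ∈ (Finset.Icc 1 Y).filter Nat.Prime, Real.log p / p := by
            refine sum_le_sum_of_subset_of_nonneg (fun p hp => ?_) fun p hp _ => ?_
            · rw [mem_filter] at hp
              rw [mem_filter, mem_Icc]
              exact ⟨⟨(hE p hp.1).one_lt.le, hp.2⟩, hE p hp.1⟩
            · rw [mem_filter] at hp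
              have hp1 : (1 : ℝ) ≤ p := by exact_mod_cast hp.2.one_lt.le
              exact div_nonneg (Real.log_nonneg hp1) (by positivity)
          have := le_max_left C 0
          linarith
  · calc ∑ p ∈ E.filter (fun p => ¬ p ≤ Y), Real.log p * (p : ℝ) ^ (η - 1)
        ≤ ∑ p ∈ E.filter (fun p => ¬ p ≤ Y), (Y : ℝ) ^ (δ + η - 1) / δ := by
          refine sum_le_sum fun p hp => ?_
          rw [mem_filter, not_le] at hp
          have hp0 : (0 : ℝ) < p := by exact_mod_cast (hE p hp.1).pos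
          have hpY : (Y : ℝ) ≤ p := by exact_mod_cast hp.2.le
          have h1 : Real.log p ≤ (p : ℝ) ^ δ / δ := Real.log_le_rpow_div hp0.le hδ
          calc Real.log p * (p : ℝ) ^ (η - 1) ≤ (p : ℝ) ^ δ / δ * (p : ℝ) ^ (η - 1) :=
                mul_le_mul_of_nonneg_right h1 (by positivity)
            _ = (p : ℝ) ^ (δ + η - 1) / δ := by
                rw [div_mul_eq_mul_div, ← Real.rpow_add hp0]
                ring_nf
            _ ≤ (Y : ℝ) ^ (δ + η - 1) / δ := by
                refine div_le_div_of_nonneg_right ?_ hδ.le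
                exact Real.rpow_le_rpow_of_nonpos hY0 hpY (by linarith)
      _ = ((E.filter (fun p => ¬ p ≤ Y)).card : ℝ) * ((Y : ℝ) ^ (δ + η - 1) / δ) := by
          rw [sum_const, nsmul_eq_mul]
      _ ≤ _ := by
          refine mul_le_mul_of_nonneg_right ?_ (by positivity)
          exact_mod_cast card_filter_le _ _

lemma sum_log (A : Finset ℕ) (x : ℕ) (hA : ∀ m ∈ A, 1 ≤ m ∧ m ≤ x) (E : Finset ℕ)
    (hE : ∀ p ∈ E, p.Prime) (hAE : ∀ m ∈ A, ∀ p, p.Prime → p ∣ m → p ∈ E) :
    ∑ m ∈ A, Real.log m =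
      ∑ p ∈ E, Real.log p * ∑ j ∈ Ico 1 (x + 1), ((A.filter fun m => p ^ j ∣ m).card : ℝ) := by
  have h1 : ∀ m ∈ A, Real.log m =
      ∑ p ∈ E, ∑ j ∈ Ico 1 (x + 1), Real.log p * (if p ^ j ∣ m then (1 : ℝ) else 0) := by
    intro m hm
    rw [Real.log_nat_eq_sum_factorization, Finsupp.sum]
    have h2 : m.factorization.support ⊆ E := by
      intro p hp
      rw [Nat.support_factorization, Nat.mem_primeFactors] at hp
      exact hAE m hm p hp.1 hp.2.1
    rw [sum_subset h2 fun p _ hp => by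
      rw [Finsupp.notMem_support_iff] at hp
      rw [hp]; simp]
    refine sum_congr rfl fun p hp => ?_
    rw [← mul_sum, mul_comm]
    congr 1
    rw [Nat.factorization_eq_card_pow_dvd_of_lt (hE p hp) (by have := (hA m hm).1; omega)
      (b := x + 1)]
    · rw [sum_boole]
    · calc m ≤ x := (hA m hm).2
        _ < x + 1 := by omega
        _ < p ^ (x + 1) := Nat.lt_pow_self (hE p hp).one_lt
  rw [sum_congr rfl h1, sum_comm]
  refine sum_congr rfl fun p _ => ?_
  rw [sum_comm, mul_sum]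
  refine sum_congr rfl fun j _ => ?_
  rw [← mul_sum, sum_boole]

open Classical in
/-- the positive integers up to `x` all of whose prime factors are in `E` -/
noncomputable def fac (E : Finset ℕ) (x : ℕ) : Finset ℕ :=
  (Icc 1 x).filter fun m => ∀ p, p.Prime → p ∣ m → p ∈ E

lemma mem_fac {E : Finset ℕ} {x m : ℕ} :
    m ∈ fac E x ↔ (1 ≤ m ∧ m ≤ x) ∧ ∀ p, p.Prime → p ∣ m → p ∈ E := by
  simp only [fac, mem_filter, mem_Icc]

lemma card_fac_le (E : Finset ℕ) (x : ℕ) : (fac E x).card ≤ x := by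
  have h1 : fac E x ⊆ Icc 1 x := fun m hm => mem_Icc.2 (mem_fac.1 hm).1
  have := card_le_card h1
  rwa [Nat.card_Icc, Nat.add_sub_cancel] at this

lemma card_fac_dvd (E : Finset ℕ) (x : ℕ) {q : ℕ} (hq : 0 < q) :
    ((fac E x).filter fun m => q ∣ m).card ≤ (fac E (x / q)).card := by
  refine card_le_card_of_injOn (fun m => m / q) (fun m hm => ?_) fun a ha b hb hab => ?_
  · rw [mem_coe, mem_filter, mem_fac] at hm
    rw [mem_coe, mem_fac]
    obtain ⟨⟨⟨h1, h2⟩, h3⟩, c, rfl⟩ := hm
    have hc : 1 ≤ c := by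
      rcases Nat.eq_zero_or_pos c with h | h
      · subst h; simp at h1
      · exact h
    show (1 ≤ q * c / q ∧ q * c / q ≤ x / q) ∧ _
    rw [Nat.mul_div_cancel_left c hq]
    refine ⟨⟨hc, ?_⟩, fun p hp hpd => h3 p hp (hpd.trans (Nat.div_dvd_of_dvd ⟨c, rfl⟩ |>.trans ?_))⟩
    · rw [Nat.le_div_iff_mul_le hq, mul_comm]
      exact h2
    · exact dvd_rfl
  · rw [mem_coe, mem_filter] at ha hb
    obtain ⟨-, c, rfl⟩ := ha
    obtain ⟨-, e, rfl⟩ := hb
    change q * c / q = q * e / q at hab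
    rw [Nat.mul_div_cancel_left c hq, Nat.mul_div_cancel_left e hq] at hab
    rw [hab]

/-- the sum of `log p / p^(1-η)` for the exponent `η = 1 / (4 log (N + 3))` -/
lemma sum_E' : ∃ K : ℝ, 1 ≤ K ∧ ∀ N : ℕ, ∀ E : Finset ℕ, (∀ p ∈ E, p.Prime) → E.card ≤ N →
    ∑ p ∈ E, Real.log p * (p : ℝ) ^ (1 / (4 * Real.log (N + 3)) - 1) ≤
      K * Real.log (N + 3) := by
  obtain ⟨C, hC0, hC⟩ := sum_E
  refine ⟨8 + 2 * C, by linarith, fun N E hE hN => ?_⟩
  have hN3 : (3 : ℝ) ≤ N + 3 := by
    have : (0 : ℝ) ≤ N := by positivity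
    linarith
  set l := Real.log (N + 3) with hl
  have hl1 : 1 ≤ l := by
    rw [hl, Real.le_log_iff_exp_le (by linarith)]
    have := Real.exp_one_lt_d9
    linarith
  have h := hC E hE ((N + 3) ^ 2) (Nat.one_le_pow _ _ (by omega)) (1 / (4 * l)) (1 / 4)
    (by positivity) (by norm_num) (by
      have : 1 / (4 * l) ≤ 1 / 4 := one_div_le_one_div_of_le (by norm_num) (by linarith)
      linarith)
  refine h.trans ?_
  have hη : 1 / (4 * l) ≤ 1 / 4 := one_div_le_one_div_of_le (by norm_num) (by linarith)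
  push_cast
  have hlog : Real.log (((N : ℝ) + 3) ^ 2) = 2 * l := by
    rw [Real.log_pow, hl]; norm_num
  have h1 : (((N : ℝ) + 3) ^ 2) ^ (1 / (4 * l)) ≤ 2 := by
    rw [Real.rpow_def_of_pos (by positivity), hlog]
    have h2 : 2 * l * (1 / (4 * l)) = 1 / 2 := by
      field_simp
      norm_num
    rw [h2]
    have h3 : Real.exp (1 / 2) ^ 2 ≤ 2 ^ 2 := by
      rw [← Real.exp_nat_mul]
      have := Real.exp_one_lt_d9
      norm_num
      linarith
    exact le_of_pow_le_pow_left₀ (by norm_num) (by norm_num) h3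
  have h2 : (((N : ℝ) + 3) ^ 2) ^ (1 / 4 + 1 / (4 * l) - 1) ≤ 1 / (N + 3) := by
    have h3 : (((N : ℝ) + 3) ^ 2) ^ (1 / 4 + 1 / (4 * l) - 1) ≤
        (((N : ℝ) + 3) ^ 2) ^ (-(1 / 2) : ℝ) :=
      Real.rpow_le_rpow_of_exponent_le (by nlinarith) (by linarith)
    refine h3.trans (le_of_eq ?_)
    rw [Real.rpow_neg (by positivity), ← Real.sqrt_eq_rpow, Real.sqrt_sq (by positivity),
      one_div]
  rw [hlog]
  have h3 : (((N : ℝ) + 3) ^ 2) ^ (1 / (4 * l)) * (2 * l + C) ≤ 2 * (2 * l + C) :=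
    mul_le_mul_of_nonneg_right h1 (by positivity)
  have h4 : (E.card : ℝ) * ((((N : ℝ) + 3) ^ 2) ^ (1 / 4 + 1 / (4 * l) - 1) / (1 / 4)) ≤ 4 := by
    have h5 : (E.card : ℝ) ≤ N + 3 := by
      have : (E.card : ℝ) ≤ N := by exact_mod_cast hN
      linarith
    calc (E.card : ℝ) * ((((N : ℝ) + 3) ^ 2) ^ (1 / 4 + 1 / (4 * l) - 1) / (1 / 4))
        ≤ (N + 3) * (1 / (N + 3) / (1 / 4)) := by
          refine mul_le_mul h5 (div_le_div_of_nonneg_right h2 (by norm_num)) (by positivity)
            (by positivity)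
      _ = 4 := by
          field_simp
  nlinarith

/-- **Few primes, few integers.** A set of at most `N` primes composes at most
`C x^(1 - 1 / (4 log (N + 3)))` of the integers up to `x`. -/
theorem fac_bound : ∃ C : ℝ, 0 < C ∧ ∀ N : ℕ, ∀ E : Finset ℕ, (∀ p ∈ E, p.Prime) → E.card ≤ N →
    ∀ x : ℕ, ((fac E x).card : ℝ) ≤ C * (x : ℝ) ^ (1 - 1 / (4 * Real.log (N + 3))) := by
  obtain ⟨K, hK1, hK⟩ := sum_E'
  refine ⟨2 * Real.exp (3 * K), by positivity, fun N E hE hN => ?_⟩
  have hN3 : (3 : ℝ) ≤ N + 3 := by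
    have : (0 : ℝ) ≤ N := by positivity
    linarith
  have hKN := hK N E hE hN
  set l := Real.log (N + 3) with hl
  have hl1 : 1 ≤ l := by
    rw [hl, Real.le_log_iff_exp_le (by linarith)]
    have := Real.exp_one_lt_d9
    linarith
  set η := 1 / (4 * l) with hηdef
  have hη : η ≤ 1 / 4 := one_div_le_one_div_of_le (by norm_num) (by linarith)
  have hη0 : 0 < η := by positivity
  set C := 2 * Real.exp (3 * K) with hCdef
  have hC2 : 2 ≤ C := by
    have := Real.one_le_exp (show (0 : ℝ) ≤ 3 * K by linarith)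
    linarith
  intro x
  induction x using Nat.strong_induction_on with
  | _ x ih =>
  rcases Nat.eq_zero_or_pos x with h0 | h0
  · subst h0
    have : (fac E 0).card = 0 := Nat.le_zero.1 (card_fac_le E 0)
    rw [this]
    push_cast
    positivity
  have hx0 : (0 : ℝ) < x := by exact_mod_cast h0
  have hx1 : (1 : ℝ) ≤ x := by exact_mod_cast h0
  have hFx : ((fac E x).card : ℝ) ≤ x := by exact_mod_cast card_fac_le E x
  by_cases hbig : Real.log x < 10 * K * l
  · -- small x
    have h1 : (x : ℝ) = (x : ℝ) ^ (1 - η) * Real.exp (η * Real.log x) := by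
      rw [mul_comm η, ← Real.rpow_def_of_pos hx0, ← Real.rpow_add hx0]
      simp
    have h2 : η * Real.log x ≤ 3 * K := by
      have h3 : η * Real.log x ≤ η * (10 * K * l) := mul_le_mul_of_nonneg_left hbig.le hη0.le
      have h4 : η * (10 * K * l) = 5 / 2 * K := by
        rw [hηdef]
        field_simp
        norm_num
      linarith
    have h3 : Real.exp (η * Real.log x) ≤ C := by
      have := Real.exp_le_exp.2 h2
      have := Real.exp_pos (3 * K)
      linarith
    calc ((fac E x).card : ℝ) ≤ x := hFx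
      _ = (x : ℝ) ^ (1 - η) * Real.exp (η * Real.log x) := h1
      _ ≤ (x : ℝ) ^ (1 - η) * C := mul_le_mul_of_nonneg_left h3 (by positivity)
      _ = _ := mul_comm _ _
  · rw [not_lt] at hbig
    have hlogx : 0 < Real.log x := lt_of_lt_of_le (by positivity) hbig
    -- the sum of the logarithms
    have hsum := sum_log (fac E x) x (fun m hm => (mem_fac.1 hm).1) E hE
      (fun m hm => (mem_fac.1 hm).2)
    have hterm : ∀ p ∈ E, ∑ j ∈ Ico 1 (x + 1), (((fac E x).filter fun m => p ^ j ∣ m).card : ℝ) ≤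
        5 / 2 * (C * (x : ℝ) ^ (1 - η)) * (p : ℝ) ^ (η - 1) := by
      intro p hp
      have hp0 : (0 : ℝ) < p := by exact_mod_cast (hE p hp).pos
      have hp2 : (2 : ℝ) ≤ p := by exact_mod_cast (hE p hp).two_le
      set r := (p : ℝ) ^ (η - 1) with hr
      have hr0 : 0 < r := Real.rpow_pos_of_pos hp0 _
      have hr1 : r ≤ 3 / 5 := by
        have h1 : r ≤ (2 : ℝ) ^ (η - 1) := Real.rpow_le_rpow_of_nonpos (by norm_num) hp2 (by linarith)
        have h2 : (2 : ℝ) ^ (η - 1) ≤ (2 : ℝ) ^ (-(3 / 4) : ℝ) :=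
          Real.rpow_le_rpow_of_exponent_le (by norm_num) (by linarith)
        have h3 : (2 : ℝ) ^ (-(3 / 4) : ℝ) ≤ 3 / 5 := by
          have h4 : ((2 : ℝ) ^ (-(3 / 4) : ℝ)) ^ 4 ≤ (3 / 5) ^ 4 := by
            rw [← Real.rpow_natCast, ← Real.rpow_mul (by norm_num)]
            norm_num [Real.rpow_neg]
          exact le_of_pow_le_pow_left₀ (by norm_num) (by norm_num) h4
        linarith
      calc ∑ j ∈ Ico 1 (x + 1), (((fac E x).filter fun m => p ^ j ∣ m).card : ℝ)
          ≤ ∑ j ∈ Ico 1 (x + 1), C * (x : ℝ) ^ (1 - η) * r ^ j := by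
            refine sum_le_sum fun j hj => ?_
            rw [mem_Ico] at hj
            have hq : 0 < p ^ j := pow_pos (hE p hp).pos j
            have hq1 : 1 < p ^ j := Nat.one_lt_pow (by omega) (hE p hp).one_lt
            have h1 : (((fac E x).filter fun m => p ^ j ∣ m).card : ℝ) ≤
                ((fac E (x / p ^ j)).card : ℝ) := by exact_mod_cast card_fac_dvd E x hq
            refine h1.trans ((ih (x / p ^ j) (Nat.div_lt_self h0 hq1)).trans ?_)
            have h2 : ((x / p ^ j : ℕ) : ℝ) ≤ x / (p : ℝ) ^ j := by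
              have := Nat.cast_div_le (α := ℝ) (m := x) (n := p ^ j)
              push_cast at this
              exact this
            have h3 : ((x / p ^ j : ℕ) : ℝ) ^ (1 - η) ≤ (x / (p : ℝ) ^ j) ^ (1 - η) :=
              Real.rpow_le_rpow (by positivity) h2 (by linarith)
            have h4 : (x / (p : ℝ) ^ j) ^ (1 - η) = (x : ℝ) ^ (1 - η) * r ^ j := by
              rw [Real.div_rpow hx0.le (by positivity), hr, ← Real.rpow_natCast, ← Real.rpow_natCast,
                ← Real.rpow_mul hp0.le, ← Real.rpow_mul hp0.le, div_eq_mul_inv,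
                ← Real.rpow_neg hp0.le]
              congr 2
              ring
            calc C * ((x / p ^ j : ℕ) : ℝ) ^ (1 - η) ≤ C * (x / (p : ℝ) ^ j) ^ (1 - η) :=
                  mul_le_mul_of_nonneg_left h3 (by positivity)
              _ = _ := by rw [h4]; ring
        _ = C * (x : ℝ) ^ (1 - η) * ∑ j ∈ Ico 1 (x + 1), r ^ j := by rw [mul_sum]
        _ ≤ C * (x : ℝ) ^ (1 - η) * (5 / 2 * r) := by
            refine mul_le_mul_of_nonneg_left ?_ (by positivity)
            have h1 := geom_sum_Ico_le_of_lt_one (m := 1) (n := x + 1) hr0.le (by linarith)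
            refine h1.trans ?_
            rw [pow_one, div_le_iff₀ (by linarith)]
            nlinarith
        _ = _ := by ring
    have hsum2 : ∑ m ∈ fac E x, Real.log m ≤ 5 / 2 * (C * (x : ℝ) ^ (1 - η)) * (K * l) := by
      rw [hsum]
      calc ∑ p ∈ E, Real.log p *
            ∑ j ∈ Ico 1 (x + 1), (((fac E x).filter fun m => p ^ j ∣ m).card : ℝ)
          ≤ ∑ p ∈ E, 5 / 2 * (C * (x : ℝ) ^ (1 - η)) * (Real.log p * (p : ℝ) ^ (η - 1)) := by
            refine sum_le_sum fun p hp => ?_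
            have hp1 : (1 : ℝ) ≤ p := by exact_mod_cast (hE p hp).one_lt.le
            have := mul_le_mul_of_nonneg_left (hterm p hp) (Real.log_nonneg hp1)
            calc _ ≤ _ := this
              _ = _ := by ring
        _ = 5 / 2 * (C * (x : ℝ) ^ (1 - η)) * ∑ p ∈ E, Real.log p * (p : ℝ) ^ (η - 1) := by
            rw [mul_sum]
        _ ≤ _ := mul_le_mul_of_nonneg_left hKN (by positivity)
    -- the numbers above `√x`
    have hlow : (((fac E x).card : ℝ) - Real.sqrt x) * (Real.log x / 2) ≤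
        ∑ m ∈ fac E x, Real.log m := by
      have h1 : ((fac E x).card : ℝ) - Real.sqrt x ≤
          (((fac E x).filter fun m : ℕ => Real.sqrt x < (m : ℝ)).card : ℝ) := by
        have h2 := card_filter_add_card_filter_not (s := fac E x) (fun m : ℕ => Real.sqrt x < (m : ℝ))
        have h3 : (((fac E x).filter fun m : ℕ => ¬ Real.sqrt x < (m : ℝ)).card : ℝ) ≤ Real.sqrt x := by
          have h4 : ((fac E x).filter fun m : ℕ => ¬ Real.sqrt x < (m : ℝ)) ⊆
              Icc 1 ⌊Real.sqrt x⌋₊ := by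
            intro m hm
            rw [mem_filter, mem_fac, not_lt] at hm
            rw [mem_Icc]
            exact ⟨hm.1.1.1, Nat.le_floor hm.2⟩
          have h5 := card_le_card h4
          rw [Nat.card_Icc, Nat.add_sub_cancel] at h5
          calc _ ≤ ((⌊Real.sqrt x⌋₊ : ℕ) : ℝ) := by exact_mod_cast h5
            _ ≤ _ := Nat.floor_le (Real.sqrt_nonneg _)
        have h2' : ((((fac E x).filter fun m : ℕ => Real.sqrt x < (m : ℝ)).card : ℕ) : ℝ) +
            (((fac E x).filter fun m : ℕ => ¬ Real.sqrt x < (m : ℝ)).card : ℝ) =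
            ((fac E x).card : ℝ) := by exact_mod_cast h2
        linarith
      calc _ ≤ (((fac E x).filter fun m : ℕ => Real.sqrt x < (m : ℝ)).card : ℝ) *
            (Real.log x / 2) := mul_le_mul_of_nonneg_right h1 (by positivity)
        _ = ∑ m ∈ (fac E x).filter (fun m : ℕ => Real.sqrt x < (m : ℝ)), Real.log x / 2 := by
            rw [sum_const, nsmul_eq_mul]
        _ ≤ ∑ m ∈ (fac E x).filter (fun m : ℕ => Real.sqrt x < (m : ℝ)), Real.log m := by
            refine sum_le_sum fun m hm => ?_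
            rw [mem_filter] at hm
            rw [← Real.log_sqrt hx0.le]
            exact Real.log_le_log (Real.sqrt_pos.2 hx0) hm.2.le
        _ ≤ _ := by
            refine sum_le_sum_of_subset_of_nonneg (filter_subset _ _) fun m hm _ => ?_
            exact Real.log_natCast_nonneg m
    have hsqrt : Real.sqrt x ≤ (x : ℝ) ^ (1 - η) := by
      rw [Real.sqrt_eq_rpow]
      exact Real.rpow_le_rpow_of_exponent_le hx1 (by linarith)
    set X := (x : ℝ) ^ (1 - η) with hX
    have hX0 : 0 < X := Real.rpow_pos_of_pos hx0 _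
    -- combine
    have h5 : (((fac E x).card : ℝ) - Real.sqrt x) * (Real.log x / 2) ≤
        5 / 2 * (C * X) * (K * l) := hlow.trans hsum2
    have h6 : 5 / 2 * (C * X) * (K * l) ≤ C * X / 2 * (Real.log x / 2) := by
      have : 0 < C * X := by positivity
      nlinarith
    have h7 : ((fac E x).card : ℝ) - Real.sqrt x ≤ C * X / 2 :=
      le_of_mul_le_mul_right (h5.trans h6) (by positivity)
    have h8 : X ≤ C * X / 2 := by nlinarith
    linarith

end Pool.Agent.N43.SC
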