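import Mathlib

/-!
# Short primitive cycles of the `3x+d` maps: divisibility
-/

set_option autoImplicit false

namespace Pool.Agent.N43.SC

open Finset

/-- The map `T_d`: `x / 2` for even `x`, `(3 x + d) / 2` for odd `x`. -/
def T (d x : ℤ) : ℤ := if Even x then x / 2 else (3 * x + d) / 2

lemma two_T {d : ℤ} (hd : Odd d) (x : ℤ) :
    2 * T d x = if Even x then x else 3 * x + d := by
  unfold T
  split_ifs with h
  · obtain ⟨y, rfl⟩ := h
    omega
  · have hx : Odd x := Int.not_even_iff_odd.1 h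
    have : Even (3 * x + d) := by
      have h3 : Odd (3 * x) := (by decide : Odd (3 : ℤ)).mul hx
      exact h3.add_odd hd
    obtain ⟨y, hy⟩ := this
    rw [hy]
    omega

lemma iterate_eq {d : ℤ} (hd : Odd d) (x : ℤ) (n : ℕ) :
    ∃ k ≤ n, ∃ N : ℤ, 2 ^ n * (T d)^[n] x = 3 ^ k * x + d * N ∧ (k = 0 → N = 0) := by
  induction n with
  | zero => exact ⟨0, le_rfl, 0, by simp, fun _ => rfl⟩
  | succ n ih =>
    obtain ⟨k, hk, N, h, h0⟩ := ih
    rw [Function.iterate_succ_apply']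
    have h2 := two_T hd ((T d)^[n] x)
    split_ifs at h2 with he
    · refine ⟨k, by omega, N, ?_, h0⟩
      rw [pow_succ, mul_assoc, h2, h]
    · refine ⟨k + 1, by omega, 3 * N + 2 ^ n, ?_, by simp⟩
      rw [pow_succ, mul_assoc, h2]
      have : (2 : ℤ) ^ n * (3 * (T d)^[n] x + d) = 3 * (2 ^ n * (T d)^[n] x) + 2 ^ n * d := by ring
      rw [this, h]
      ring

/-- the numbers `|2^n - 3^k|` -/
def M (n k : ℕ) : ℕ := ((2 : ℤ) ^ n - 3 ^ k).natAbs

lemma M_ne_zero {n : ℕ} (hn : 1 ≤ n) (k : ℕ) : M n k ≠ 0 := by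
  unfold M
  intro h
  rw [Int.natAbs_eq_zero, sub_eq_zero] at h
  have h1 : Even ((2 : ℤ) ^ n) := (by decide : Even (2 : ℤ)).pow_of_ne_zero (by omega)
  have h2 : Odd ((3 : ℤ) ^ k) := (by decide : Odd (3 : ℤ)).pow
  rw [h] at h1
  exact (Int.not_even_iff_odd.2 h2) h1

lemma M_lt {n k : ℕ} (hn : 1 ≤ n) (hk : k ≤ n) : M n k < 3 ^ n := by
  unfold M
  have h1 : (2 : ℤ) ^ n < 3 ^ n := by
    exact_mod_cast Nat.pow_lt_pow_left (by norm_num : 2 < 3) (by omega)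
  have h2 : (3 : ℤ) ^ k ≤ 3 ^ n := pow_le_pow_right₀ (by norm_num) hk
  have h3 : (1 : ℤ) ≤ 3 ^ k := one_le_pow₀ (by norm_num)
  have h4 : (1 : ℤ) ≤ 2 ^ n := one_le_pow₀ (by norm_num)
  zify
  rw [abs_lt]
  constructor <;> linarith

/-- a cycle of length dividing `n` through an integer prime to `d` forces `d ∣ 2^n - 3^k` -/
lemma dvd_of_cycle {d : ℤ} (hd : Odd d) {x : ℤ} {n : ℕ} (hn : 1 ≤ n) (hx : (T d)^[n] x = x)
    (hc : IsCoprime x d) : (∃ k ≤ n, d ∣ (2 : ℤ) ^ n - 3 ^ k) ∧ ¬ (3 : ℤ) ∣ d := by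
  obtain ⟨k, hk, N, h, h0⟩ := iterate_eq hd x n
  rw [hx] at h
  have h1 : d ∣ ((2 : ℤ) ^ n - 3 ^ k) * x := ⟨N, by linear_combination h⟩
  have h2 := hc.symm.dvd_of_dvd_mul_right h1
  refine ⟨⟨k, hk, h2⟩, fun h3 => ?_⟩
  rcases Nat.eq_zero_or_pos k with hk0 | hk0
  · rw [hk0, h0 hk0, pow_zero, one_mul, mul_zero, add_zero] at h
    have hx0 : x = 0 := by
      have h4 : (2 : ℤ) ≤ 2 ^ n := by
        calc (2 : ℤ) = 2 ^ 1 := by norm_num
          _ ≤ 2 ^ n := pow_le_pow_right₀ (by norm_num) hn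
      have h5 : ((2 : ℤ) ^ n - 1) * x = 0 := by linear_combination h
      rcases mul_eq_zero.1 h5 with h6 | h6
      · omega
      · exact h6
    rw [hx0, isCoprime_zero_left] at hc
    have := h3.trans (isUnit_iff_dvd_one.1 hc)
    norm_num at this
  · have h4 : (3 : ℤ) ∣ 2 ^ n := by
      have h5 := h3.trans h2
      have h6 : (3 : ℤ) ∣ 3 ^ k := dvd_pow_self 3 (by omega)
      have := dvd_add h5 h6
      rwa [sub_add_cancel] at this
    have h5 := Int.prime_three.dvd_of_dvd_pow h4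
    norm_num at h5

/-- `T_d` has a primitive cycle with at most `L` elements. -/
def Short (L : ℕ) (d : ℤ) : Prop :=
  ∃ x : ℤ, IsCoprime x d ∧ ∃ n : ℕ, 1 ≤ n ∧ n ≤ L ∧ (T d)^[n] x = x

lemma Short.dvd {L : ℕ} {d : ℕ} (hd : Odd d) (h : Short L d) :
    ∃ n k : ℕ, 1 ≤ n ∧ n ≤ L ∧ k ≤ n ∧ d ∣ M n k := by
  obtain ⟨x, hx, n, hn, hnL, hT⟩ := h
  obtain ⟨⟨k, hk, hdvd⟩, -⟩ := dvd_of_cycle (by exact_mod_cast hd) hn hT hx
  refine ⟨n, k, hn, hnL, hk, ?_⟩
  have := Int.natAbs_dvd_natAbs.2 hdvd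
  rwa [Int.natAbs_natCast] at this

lemma Short.three {L : ℕ} {d : ℕ} (hd : Odd d) (h : Short L d) : ¬ 3 ∣ d := by
  obtain ⟨x, hx, n, hn, hnL, hT⟩ := h
  have := (dvd_of_cycle (by exact_mod_cast hd) hn hT hx).2
  exact_mod_cast this

/-- the prime numbers from `5` on that divide one of the numbers `2^n - 3^k`, `k ≤ n ≤ L` -/
def EL (L : ℕ) : Finset ℕ :=
  (Icc 1 L ×ˢ range (L + 1)).biUnion fun a =>
    if a.2 ≤ a.1 then (M a.1 a.2).primeFactors.filter (5 ≤ ·) else ∅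

lemma card_primeFactors_five {n k : ℕ} (hn : 1 ≤ n) (hk : k ≤ n) :
    ((M n k).primeFactors.filter (5 ≤ ·)).card ≤ n := by
  have h1 : 5 ^ ((M n k).primeFactors.filter (5 ≤ ·)).card ≤
      ∏ p ∈ (M n k).primeFactors.filter (5 ≤ ·), p :=
    Finset.pow_card_le_prod _ _ _ fun p hp => (mem_filter.1 hp).2
  have h2 : ∏ p ∈ (M n k).primeFactors.filter (5 ≤ ·), p ≤ ∏ p ∈ (M n k).primeFactors, p :=
    prod_le_prod_of_subset_of_one_le' (filter_subset _ _) fun p hp _ =>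
      (Nat.prime_of_mem_primeFactors hp).one_lt.le
  have h3 : ∏ p ∈ (M n k).primeFactors, p ≤ M n k :=
    Nat.le_of_dvd (Nat.pos_of_ne_zero (M_ne_zero hn k)) (Nat.prod_primeFactors_dvd _)
  have h4 := M_lt hn hk
  have h5 : 3 ^ n ≤ 5 ^ n := Nat.pow_le_pow_left (by norm_num) n
  have h6 : 5 ^ ((M n k).primeFactors.filter (5 ≤ ·)).card < 5 ^ n := by omega
  exact (Nat.pow_lt_pow_iff_right (by norm_num)).1 h6 |>.le

lemma card_primeFactors_le {n k : ℕ} (hn : 1 ≤ n) (hk : k ≤ n) :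
    (M n k).primeFactors.card ≤ 2 * n := by
  have h1 : 2 ^ (M n k).primeFactors.card ≤ ∏ p ∈ (M n k).primeFactors, p :=
    Finset.pow_card_le_prod _ _ _ fun p hp => (Nat.prime_of_mem_primeFactors hp).two_le
  have h3 : ∏ p ∈ (M n k).primeFactors, p ≤ M n k :=
    Nat.le_of_dvd (Nat.pos_of_ne_zero (M_ne_zero hn k)) (Nat.prod_primeFactors_dvd _)
  have h4 := M_lt hn hk
  have h5 : 3 ^ n ≤ 2 ^ (2 * n) := by
    rw [pow_mul]
    exact Nat.pow_le_pow_left (by norm_num) n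
  have h6 : 2 ^ (M n k).primeFactors.card < 2 ^ (2 * n) := by omega
  exact (Nat.pow_lt_pow_iff_right (by norm_num)).1 h6 |>.le

lemma card_EL (L : ℕ) : (EL L).card ≤ 2 * L ^ 3 := by
  have h1 : (EL L).card ≤ ∑ a ∈ Icc 1 L ×ˢ range (L + 1), L := by
    refine card_biUnion_le.trans (sum_le_sum fun a ha => ?_)
    rw [mem_product, mem_Icc] at ha
    split_ifs with h
    · exact (card_primeFactors_five ha.1.1 h).trans ha.1.2
    · simp
  rw [sum_const, card_product, Nat.card_Icc, card_range, smul_eq_mul] at h1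
  rcases Nat.eq_zero_or_pos L with h | h
  · subst h
    simpa using h1
  · have : (L + 1 - 1) * (L + 1) * L ≤ 2 * L ^ 3 := by
      rw [Nat.add_sub_cancel]
      nlinarith [mul_pos h h]
    omega

lemma prime_of_mem_EL {L p : ℕ} (hp : p ∈ EL L) : p.Prime ∧ 5 ≤ p := by
  unfold EL at hp
  rw [mem_biUnion] at hp
  obtain ⟨a, -, h⟩ := hp
  split_ifs at h
  · rw [mem_filter] at h
    exact ⟨Nat.prime_of_mem_primeFactors h.1, h.2⟩
  · simp at h

lemma Short.mem_EL {L d : ℕ} (hd : Odd d) (h : Short L d) {p : ℕ} (hp : p.Prime) (hpd : p ∣ d) :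
    p ∈ EL L := by
  obtain ⟨n, k, hn, hnL, hk, hdvd⟩ := h.dvd hd
  have h3 := h.three hd
  have h5 : 5 ≤ p := by
    have h2 : p ≠ 2 := by
      rintro rfl
      obtain ⟨y, rfl⟩ := hd
      omega
    have h3' : p ≠ 3 := by
      rintro rfl
      exact h3 hpd
    have h4 : p ≠ 4 := by
      rintro rfl
      revert hp
      decide
    have := hp.two_le
    omega
  unfold EL
  rw [mem_biUnion]
  refine ⟨(n, k), ?_, ?_⟩
  · rw [mem_product, mem_Icc, mem_range]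
    exact ⟨⟨hn, hnL⟩, by simp; omega⟩
  · rw [if_pos hk, mem_filter, Nat.mem_primeFactors]
    exact ⟨⟨hp, hpd.trans hdvd, M_ne_zero hn k⟩, h5⟩

end Pool.Agent.N43.SC
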