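import Mathlib

/-!
# Divisors of an integer up to a bound
-/

set_option autoImplicit false

namespace Pool.Agent.N43.SC

open Finset

/-- `m ^ η - (m - 1) ^ η ≥ η m ^ (η - 1)` -/
lemma rpow_step {η : ℝ} (h0 : 0 < η) (h1 : η ≤ 1) {m : ℕ} (hm : 1 ≤ m) :
    η * (m : ℝ) ^ (η - 1) ≤ (m : ℝ) ^ η - ((m - 1 : ℕ) : ℝ) ^ η := by
  have hm0 : (0 : ℝ) < m := by exact_mod_cast hm
  have hcast : ((m - 1 : ℕ) : ℝ) = m - 1 := by
    rw [Nat.cast_sub hm, Nat.cast_one]
  have hs : (-1 : ℝ) ≤ -1 / m := by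
    rw [le_div_iff₀ hm0]
    have : (1 : ℝ) ≤ m := by exact_mod_cast hm
    linarith
  have h2 := rpow_one_add_le_one_add_mul_self hs h0.le h1
  have h3 : (m : ℝ) - 1 = m * (1 + -1 / m) := by field_simp; ring
  have hnn : (0 : ℝ) ≤ 1 + -1 / m := by linarith
  rw [hcast, h3, Real.mul_rpow hm0.le hnn, Real.rpow_sub hm0, Real.rpow_one]
  have h4 : (m : ℝ) ^ η * (1 + -1 / m) ^ η ≤ (m : ℝ) ^ η * (1 + η * (-1 / m)) :=
    mul_le_mul_of_nonneg_left h2 (Real.rpow_nonneg hm0.le _)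
  have h5 : (m : ℝ) ^ η * (1 + η * (-1 / m)) = (m : ℝ) ^ η - η * ((m : ℝ) ^ η / m) := by
    field_simp
    ring
  linarith

/-- the sum of `p ^ (η - 1)` over a finite set of positive integers -/
lemma sum_rpow_le {η : ℝ} (h0 : 0 < η) (h1 : η ≤ 1) (S : Finset ℕ) (hS : ∀ p ∈ S, 1 ≤ p) :
    ∑ p ∈ S, (p : ℝ) ^ (η - 1) ≤ (S.card : ℝ) ^ η / η := by
  revert hS
  refine Finset.induction_on_max S ?_ ?_
  · intro _
    simp [h0.ne']
  · intro a s ha ih hS
    have has : a ∉ s := fun h => lt_irrefl _ (ha a h)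
    have h2 := ih fun p hp => hS p (mem_insert_of_mem hp)
    rw [sum_insert has, card_insert_of_notMem has]
    have ha1 : 1 ≤ a := hS a (mem_insert_self _ _)
    have hcard : s.card + 1 ≤ a := by
      have h3 : s ⊆ Ico 1 a := fun p hp =>
        mem_Ico.2 ⟨hS p (mem_insert_of_mem hp), ha p hp⟩
      have h4 := card_le_card h3
      rw [Nat.card_Ico] at h4
      omega
    have h5 := rpow_step h0 h1 (m := s.card + 1) (by omega)
    have h6 : (a : ℝ) ^ (η - 1) ≤ ((s.card + 1 : ℕ) : ℝ) ^ (η - 1) :=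
      Real.rpow_le_rpow_of_nonpos (by positivity) (by exact_mod_cast hcard) (by linarith)
    rw [Nat.add_sub_cancel] at h5
    have h7 : ((s.card + 1 : ℕ) : ℝ) ^ (η - 1) ≤
        (((s.card + 1 : ℕ) : ℝ) ^ η - (s.card : ℝ) ^ η) / η := by
      rw [le_div_iff₀ h0]
      linarith
    have h8 : (((s.card + 1 : ℕ) : ℝ) ^ η - (s.card : ℝ) ^ η) / η =
      ((s.card + 1 : ℕ) : ℝ) ^ η / η - (s.card : ℝ) ^ η / η := by ring
    linarith

/-- the completely multiplicative function `n ^ (η - 1)` -/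
noncomputable def fη (η : ℝ) : ℕ →* ℝ where
  toFun n := (n : ℝ) ^ (η - 1)
  map_one' := by simp
  map_mul' a b := by
    rw [Nat.cast_mul, Real.mul_rpow (by positivity) (by positivity)]

/-- the constant `1 / (1 - 2^(η - 1))` -/
noncomputable def Kη (η : ℝ) : ℝ := 1 / (1 - (2 : ℝ) ^ (η - 1))

lemma two_rpow_lt {η : ℝ} (h1 : η < 1) : (2 : ℝ) ^ (η - 1) < 1 :=
  Real.rpow_lt_one_of_one_lt_of_neg (by norm_num) (by linarith)

lemma Kη_pos {η : ℝ} (h1 : η < 1) : 0 < Kη η := by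
  have := two_rpow_lt h1
  unfold Kη
  apply div_pos one_pos
  linarith

lemma euler_le {η : ℝ} (h0 : 0 < η) (h1 : η < 1) {N : ℕ} (hN : N ≠ 0) :
    ∑ d ∈ N.divisors, (d : ℝ) ^ (η - 1) ≤
      Real.exp (Kη η * ((N.primeFactors.card : ℝ) ^ η / η)) := by
  have hp1 : ∀ {p : ℕ}, p.Prime → ‖fη η p‖ < 1 := by
    intro p hp
    have : (1 : ℝ) < p := by exact_mod_cast hp.one_lt
    show ‖(p : ℝ) ^ (η - 1)‖ < 1
    rw [Real.norm_of_nonneg (by positivity : (0 : ℝ) ≤ (p : ℝ) ^ (η - 1))]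
    exact Real.rpow_lt_one_of_one_lt_of_neg this (by linarith)
  obtain ⟨hs, hsum⟩ :=
    EulerProduct.summable_and_hasSum_factoredNumbers_prod_filter_prime_geometric
      (f := fη η) hp1 N.primeFactors
  have hdiv : ∀ d ∈ N.divisors, d ∈ Nat.factoredNumbers N.primeFactors := by
    intro d hd
    rw [Nat.mem_divisors] at hd
    refine ⟨ne_zero_of_dvd_ne_zero hN hd.1, fun p hp => ?_⟩
    have := Nat.dvd_of_mem_primeFactorsList hp
    exact Nat.mem_primeFactors.2 ⟨Nat.prime_of_mem_primeFactorsList hp, this.trans hd.1, hN⟩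
  have hle : ∑ d ∈ N.divisors, (d : ℝ) ^ (η - 1) ≤
      ∏ p ∈ N.primeFactors.filter Nat.Prime, (1 - fη η p)⁻¹ := by
    have h2 := sum_le_hasSum (N.divisors.attach.map
      ⟨fun d => (⟨d.1, hdiv d.1 d.2⟩ : Nat.factoredNumbers N.primeFactors), fun a b hab => by
        have := congrArg Subtype.val hab
        exact Subtype.ext this⟩) (fun i _ => by
          show (0 : ℝ) ≤ ((i : ℕ) : ℝ) ^ (η - 1)
          positivity) hsum
    rw [sum_map] at h2
    refine le_trans (le_of_eq ?_) h2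
    rw [← sum_attach]
    rfl
  refine hle.trans ?_
  have hfilter : N.primeFactors.filter Nat.Prime = N.primeFactors :=
    filter_true_of_mem fun p hp => Nat.prime_of_mem_primeFactors hp
  rw [hfilter]
  have h3 : ∀ p ∈ N.primeFactors, (1 - fη η p)⁻¹ ≤ Real.exp (Kη η * (p : ℝ) ^ (η - 1)) := by
    intro p hp
    have hp' := Nat.prime_of_mem_primeFactors hp
    have hp2 : (2 : ℝ) ≤ p := by exact_mod_cast hp'.two_le
    have hu : fη η p = (p : ℝ) ^ (η - 1) := rfl
    rw [hu]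
    set u : ℝ := (p : ℝ) ^ (η - 1) with hudef
    have hu0 : 0 < u := Real.rpow_pos_of_pos (by linarith) _
    have h4 : u ≤ (2 : ℝ) ^ (η - 1) :=
      Real.rpow_le_rpow_of_nonpos (by norm_num) hp2 (by linarith)
    have h5 := two_rpow_lt h1
    have h6 : 0 < 1 - u := by linarith
    have h7 := Real.one_sub_inv_le_log_of_pos h6
    have h8 : (1 - u)⁻¹ = Real.exp (-Real.log (1 - u)) := by
      rw [Real.exp_neg, Real.exp_log h6]
    rw [h8, Real.exp_le_exp]
    have h9 : (1 - u)⁻¹ - 1 = u / (1 - u) := by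
      field_simp
      ring
    have h10 : u / (1 - u) ≤ u / (1 - (2 : ℝ) ^ (η - 1)) :=
      div_le_div_of_nonneg_left hu0.le (by linarith) (by linarith)
    have h11 : u / (1 - (2 : ℝ) ^ (η - 1)) = Kη η * u := by
      unfold Kη
      ring
    linarith
  refine (prod_le_prod (fun p hp => ?_) h3).trans ?_
  · have := hp1 (Nat.prime_of_mem_primeFactors hp)
    rw [Real.norm_eq_abs] at this
    have := (abs_lt.1 this).2
    exact inv_nonneg.2 (by linarith)
  · rw [← Real.exp_sum, Real.exp_le_exp, ← mul_sum]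
    exact mul_le_mul_of_nonneg_left (sum_rpow_le h0 h1.le _ fun p hp =>
      (Nat.prime_of_mem_primeFactors hp).one_lt.le) (Kη_pos h1).le

/-- the number of the divisors of `N` up to `D` -/
lemma card_divisors_le {η : ℝ} (h0 : 0 < η) (h1 : η < 1) {N : ℕ} (hN : N ≠ 0) {D : ℕ} :
    ((N.divisors.filter fun d => d ≤ D).card : ℝ) ≤
      (D : ℝ) ^ (1 - η) * Real.exp (Kη η * ((N.primeFactors.card : ℝ) ^ η / η)) := by
  calc ((N.divisors.filter fun d => d ≤ D).card : ℝ)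
      = ∑ d ∈ N.divisors.filter (fun d => d ≤ D), (1 : ℝ) := by simp
    _ ≤ ∑ d ∈ N.divisors.filter (fun d => d ≤ D), (D : ℝ) ^ (1 - η) * (d : ℝ) ^ (η - 1) := by
        refine sum_le_sum fun d hd => ?_
        rw [mem_filter, Nat.mem_divisors] at hd
        have hd0 : (0 : ℝ) < d := by
          exact_mod_cast Nat.pos_of_ne_zero (ne_zero_of_dvd_ne_zero hN hd.1.1)
        have hdD : (d : ℝ) ≤ D := by exact_mod_cast hd.2
        have h2 : (d : ℝ) ^ (1 - η) ≤ (D : ℝ) ^ (1 - η) :=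
          Real.rpow_le_rpow hd0.le hdD (by linarith)
        have h3 : (d : ℝ) ^ (1 - η) * (d : ℝ) ^ (η - 1) = 1 := by
          rw [← Real.rpow_add hd0]
          simp
        calc (1 : ℝ) = (d : ℝ) ^ (1 - η) * (d : ℝ) ^ (η - 1) := h3.symm
          _ ≤ _ := mul_le_mul_of_nonneg_right h2 (Real.rpow_nonneg hd0.le _)
    _ ≤ ∑ d ∈ N.divisors, (D : ℝ) ^ (1 - η) * (d : ℝ) ^ (η - 1) :=
        sum_le_sum_of_subset_of_nonneg (filter_subset _ _) fun d _ _ => by positivity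
    _ ≤ _ := by
        rw [← mul_sum]
        exact mul_le_mul_of_nonneg_left (euler_le h0 h1 hN) (by positivity)

end Pool.Agent.N43.SC
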