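import Mathlib
import Pool.Agent.N43.SC.Map
import Pool.Agent.N43.SC.Rankin
import Pool.Agent.N43.SC.Fac

/-!
# The number of the maps `T_d` with a short primitive cycle
-/

set_option autoImplicit false

namespace Pool.Agent.N43.SC

open Finset Filter Topology

open Classical in
/-- the odd `d ≤ x` such that `T_d` has a primitive cycle with at most `L` elements -/
noncomputable def AL (L x : ℕ) : Finset ℕ :=
  (Icc 1 x).filter fun d => Odd d ∧ Short L d

lemma mem_AL {L x d : ℕ} : d ∈ AL L x ↔ (1 ≤ d ∧ d ≤ x) ∧ Odd d ∧ Short L d := by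
  simp only [AL, mem_filter, mem_Icc]

/-- First bound. -/
theorem AL_first : ∃ C : ℝ, 0 < C ∧ ∀ L x : ℕ,
    ((AL L x).card : ℝ) ≤ C * (x : ℝ) ^ (1 - 1 / (4 * Real.log ((2 * L ^ 3 : ℕ) + 3))) := by
  obtain ⟨C, hC, h⟩ := fac_bound
  refine ⟨C, hC, fun L x => ?_⟩
  have h1 := h (2 * L ^ 3) (EL L) (fun p hp => (prime_of_mem_EL hp).1) (card_EL L) x
  refine le_trans ?_ h1
  have h2 : AL L x ⊆ fac (EL L) x := by
    intro d hd
    rw [mem_AL] at hd
    rw [mem_fac]
    exact ⟨hd.1, fun p hp hpd => hd.2.2.mem_EL hd.2.1 hp hpd⟩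
  exact_mod_cast card_le_card h2

/-- Second bound. -/
theorem AL_second {η : ℝ} (h0 : 0 < η) (h1 : η < 1) (L x : ℕ) :
    ((AL L x).card : ℝ) ≤ ((L + 1 : ℕ) : ℝ) ^ 2 *
      ((x : ℝ) ^ (1 - η) * Real.exp (Kη η * (((2 * L : ℕ) : ℝ) ^ η / η))) := by
  classical
  have h2 : AL L x ⊆ (Icc 1 L ×ˢ range (L + 1)).biUnion fun a =>
      if a.2 ≤ a.1 then (M a.1 a.2).divisors.filter (fun d => d ≤ x) else ∅ := by
    intro d hd
    rw [mem_AL] at hd
    obtain ⟨n, k, hn, hnL, hk, hdvd⟩ := hd.2.2.dvd hd.2.1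
    rw [mem_biUnion]
    refine ⟨(n, k), ?_, ?_⟩
    · rw [mem_product, mem_Icc, mem_range]
      exact ⟨⟨hn, hnL⟩, by simp; omega⟩
    · rw [if_pos hk, mem_filter, Nat.mem_divisors]
      exact ⟨⟨hdvd, M_ne_zero hn k⟩, hd.1.2⟩
  have h3 := (card_le_card h2).trans card_biUnion_le
  have h4 : ((AL L x).card : ℝ) ≤ ∑ a ∈ Icc 1 L ×ˢ range (L + 1),
      ((if a.2 ≤ a.1 then (M a.1 a.2).divisors.filter (fun d => d ≤ x) else ∅ : Finset ℕ).card : ℝ) := by
    exact_mod_cast h3
  refine h4.trans ?_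
  set B := (x : ℝ) ^ (1 - η) * Real.exp (Kη η * (((2 * L : ℕ) : ℝ) ^ η / η)) with hB
  have hB0 : 0 ≤ B := by positivity
  calc _ ≤ ∑ a ∈ Icc 1 L ×ˢ range (L + 1), B := by
        refine sum_le_sum fun a ha => ?_
        rw [mem_product, mem_Icc] at ha
        split_ifs with hk
        · refine (card_divisors_le h0 h1 (M_ne_zero ha.1.1 a.2)).trans ?_
          rw [hB]
          refine mul_le_mul_of_nonneg_left ?_ (by positivity)
          rw [Real.exp_le_exp]
          refine mul_le_mul_of_nonneg_left ?_ (Kη_pos h1).le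
          refine div_le_div_of_nonneg_right ?_ h0.le
          refine Real.rpow_le_rpow (by positivity) ?_ h0.le
          have h5 := card_primeFactors_le ha.1.1 hk
          have h6 := ha.1.2
          exact_mod_cast (by omega : (M a.1 a.2).primeFactors.card ≤ 2 * L)
        · simpa using hB0
    _ = ((L * (L + 1) : ℕ) : ℝ) * B := by
        rw [sum_const, card_product, Nat.card_Icc, card_range, nsmul_eq_mul, Nat.add_sub_cancel]
    _ ≤ _ := by
        refine mul_le_mul_of_nonneg_right ?_ hB0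
        push_cast
        have : (0 : ℝ) ≤ L := by positivity
        nlinarith

/-! ### The third bound -/

lemma card_cop (x : ℕ) {q : ℕ} (hq : 0 < q) (A : Finset ℕ)
    (hA : ∀ m ∈ A, (1 ≤ m ∧ m ≤ x) ∧ Odd m ∧ ¬ 3 ∣ m) :
    (A.filter fun m => q ∣ m).card ≤ x / q / 3 + 1 := by
  have h : (A.filter fun m => q ∣ m).card ≤ (range (x / q / 3 + 1)).card := by
    refine card_le_card_of_injOn (fun m => m / q / 3) (fun m hm => ?_) fun a ha b hb hab => ?_
    · rw [mem_coe, mem_filter] at hm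
      rw [mem_coe, mem_range]
      have h1 := (hA m hm.1).1.2
      have h2 : m / q ≤ x / q := Nat.div_le_div_right h1
      show m / q / 3 < x / q / 3 + 1
      omega
    · rw [mem_coe, mem_filter] at ha hb
      obtain ⟨ha, c, rfl⟩ := ha
      obtain ⟨hb, e, rfl⟩ := hb
      change q * c / q / 3 = q * e / q / 3 at hab
      rw [Nat.mul_div_cancel_left c hq, Nat.mul_div_cancel_left e hq] at hab
      obtain ⟨-, h2, h3⟩ := hA _ ha
      obtain ⟨-, h4, h5⟩ := hA _ hb
      have h6 : Odd c := Nat.Odd.of_mul_right h2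
      have h7 : Odd e := Nat.Odd.of_mul_right h4
      have h8 : ¬ 3 ∣ c := fun h => h3 (h.mul_left q)
      have h9 : ¬ 3 ∣ e := fun h => h5 (h.mul_left q)
      obtain ⟨u, hu⟩ := h6
      obtain ⟨v, hv⟩ := h7
      have : c = e := by omega
      rw [this]
  rwa [card_range] at h

lemma sum_E3 : ∃ C : ℝ, 0 ≤ C ∧ ∀ E : Finset ℕ, (∀ p ∈ E, p.Prime) → ∀ Y : ℕ, 1 ≤ Y →
    ∀ δ : ℝ, 0 < δ → δ ≤ 1 →
    ∑ p ∈ E, Real.log p * (1 / ((p : ℝ) - 1)) ≤
      Real.log Y + C + E.card * ((Y : ℝ) ^ (δ - 1) / δ) := by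
  obtain ⟨C1, hC1, h1⟩ := sum_E
  obtain ⟨C2, hC2, h2⟩ := Pool.Agent.Erdos456.Mert.sum_small_bound
  refine ⟨C1 + C2, by positivity, fun E hE Y hY δ hδ hδ1 => ?_⟩
  have h3 := h1 E hE Y hY 0 δ le_rfl hδ (by linarith)
  rw [Real.rpow_zero, one_mul, add_zero] at h3
  have h4 : ∑ p ∈ E, Real.log p / (p * (p - 1)) ≤ C2 := by
    refine le_trans ?_ (h2 (E.sup id))
    refine sum_le_sum_of_subset_of_nonneg (fun p hp => ?_) fun p hp _ => ?_
    · rw [mem_filter, mem_Icc]
      exact ⟨⟨(hE p hp).one_lt.le, le_sup (f := id) hp⟩, hE p hp⟩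
    · rw [mem_filter] at hp
      have hp1 : (1 : ℝ) ≤ p := by exact_mod_cast hp.2.one_lt.le
      exact div_nonneg (Real.log_nonneg hp1) (mul_nonneg (by positivity) (by linarith))
  have h5 : ∑ p ∈ E, Real.log p * (1 / ((p : ℝ) - 1)) =
      ∑ p ∈ E, Real.log p * (p : ℝ) ^ ((0 : ℝ) - 1) + ∑ p ∈ E, Real.log p / (p * (p - 1)) := by
    rw [← sum_add_distrib]
    refine sum_congr rfl fun p hp => ?_
    have hp0 : (0 : ℝ) < p := by exact_mod_cast (hE p hp).pos
    have hp1 : (0 : ℝ) < (p : ℝ) - 1 := by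
      have : (1 : ℝ) < p := by exact_mod_cast (hE p hp).one_lt
      linarith
    rw [zero_sub, Real.rpow_neg_one]
    field_simp
    ring
  rw [h5]
  linarith

lemma sum_log_le (E : Finset ℕ) (hE : ∀ p ∈ E, p.Prime) (x : ℕ) (hx : 1 ≤ x) (A : Finset ℕ)
    (hA : ∀ m ∈ A, (1 ≤ m ∧ m ≤ x) ∧ Odd m ∧ ¬ 3 ∣ m)
    (hAE : ∀ m ∈ A, ∀ p, p.Prime → p ∣ m → p ∈ E) :
    ∑ m ∈ A, Real.log m ≤
      (x : ℝ) / 3 * ∑ p ∈ E, Real.log p * (1 / ((p : ℝ) - 1)) + E.card * Real.log x := by
  have hx0 : (0 : ℝ) < x := by exact_mod_cast hx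
  rw [sum_log A x (fun m hm => (hA m hm).1) E hE hAE, mul_sum, ← nsmul_eq_mul, ← sum_const,
    ← sum_add_distrib]
  refine sum_le_sum fun p hp => ?_
  have hp' := hE p hp
  have hp0 : (0 : ℝ) < p := by exact_mod_cast hp'.pos
  have hp1 : (1 : ℝ) < p := by exact_mod_cast hp'.one_lt
  have hlp : 0 ≤ Real.log p := Real.log_nonneg hp1.le
  have hsum : ∑ j ∈ Ico 1 (x + 1), ((A.filter fun m => p ^ j ∣ m).card : ℝ) ≤
      (x : ℝ) / 3 * (1 / ((p : ℝ) - 1)) + Nat.log p x := by
    calc ∑ j ∈ Ico 1 (x + 1), ((A.filter fun m => p ^ j ∣ m).card : ℝ)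
        ≤ ∑ j ∈ Ico 1 (x + 1), ((x : ℝ) / 3 * ((p : ℝ)⁻¹) ^ j + if p ^ j ≤ x then (1 : ℝ) else 0) := by
          refine sum_le_sum fun j hj => ?_
          have hq : 0 < p ^ j := pow_pos hp'.pos j
          split_ifs with h
          · have h1 := card_cop x hq A hA
            have h2 : ((x / p ^ j / 3 : ℕ) : ℝ) ≤ (x : ℝ) / 3 * ((p : ℝ)⁻¹) ^ j := by
              have h3 := Nat.cast_div_le (α := ℝ) (m := x / p ^ j) (n := 3)
              have h4 := Nat.cast_div_le (α := ℝ) (m := x) (n := p ^ j)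
              push_cast at h3 h4
              calc ((x / p ^ j / 3 : ℕ) : ℝ) ≤ ((x / p ^ j : ℕ) : ℝ) / 3 := h3
                _ ≤ (x : ℝ) / (p : ℝ) ^ j / 3 := by
                    exact div_le_div_of_nonneg_right h4 (by norm_num)
                _ = _ := by
                    rw [inv_pow]
                    ring
            have h3 : ((A.filter fun m => p ^ j ∣ m).card : ℝ) ≤ ((x / p ^ j / 3 : ℕ) : ℝ) + 1 := by
              exact_mod_cast h1
            linarith
          · have h1 : (A.filter fun m => p ^ j ∣ m) = ∅ := by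
              rw [filter_eq_empty_iff]
              intro m hm hd
              have h2 := Nat.le_of_dvd (by have := (hA m hm).1.1; omega) hd
              have h3 := (hA m hm).1.2
              omega
            rw [h1, card_empty, Nat.cast_zero]
            positivity
      _ = (x : ℝ) / 3 * ∑ j ∈ Ico 1 (x + 1), ((p : ℝ)⁻¹) ^ j +
          (((Ico 1 (x + 1)).filter fun j => p ^ j ≤ x).card : ℝ) := by
          rw [sum_add_distrib, ← mul_sum, sum_boole]
      _ ≤ _ := by
          refine add_le_add (mul_le_mul_of_nonneg_left ?_ (by positivity)) ?_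
          · have h1 := geom_sum_Ico_le_of_lt_one (m := 1) (n := x + 1) (x := (p : ℝ)⁻¹)
              (by positivity) (inv_lt_one_of_one_lt₀ hp1)
            refine h1.trans (le_of_eq ?_)
            have : (0 : ℝ) < p - 1 := by linarith
            field_simp
          · have h1 : ((Ico 1 (x + 1)).filter fun j => p ^ j ≤ x) ⊆ Icc 1 (Nat.log p x) := by
              intro j hj
              rw [mem_filter, mem_Ico] at hj
              rw [mem_Icc]
              exact ⟨hj.1.1, Nat.le_log_of_pow_le hp'.one_lt hj.2⟩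
            have h2 := card_le_card h1
            rw [Nat.card_Icc, Nat.add_sub_cancel] at h2
            exact_mod_cast h2
  have h1 := mul_le_mul_of_nonneg_left hsum hlp
  refine h1.trans ?_
  rw [mul_add]
  refine add_le_add (le_of_eq (by ring)) ?_
  have h2 : Real.log ((p : ℝ) ^ Nat.log p x) ≤ Real.log x := by
    apply Real.log_le_log (by positivity)
    exact_mod_cast Nat.pow_log_le_self p (by omega)
  rw [Real.log_pow] at h2
  linarith

end Pool.Agent.N43.SC
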