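import Mathlib
import Pool.Agent.N43.SC.Count

/-!
# Asymptotic forms
-/

set_option autoImplicit false

namespace Pool.Agent.N43.SC

open Finset Filter Topology

/-- `T_d` has a primitive cycle with at most `L` elements (`L` real). -/
def ShortR (L : ℝ) (d : ℤ) : Prop :=
  ∃ x : ℤ, IsCoprime x d ∧ ∃ n : ℕ, 1 ≤ n ∧ (n : ℝ) ≤ L ∧ (T d)^[n] x = x

/-- the number of the odd positive integers `d ≤ D` such that `T_d` has a primitive cycle with at
most `L` elements -/
noncomputable def cnt (L D : ℝ) : ℕ := Nat.card {d : ℕ // Odd d ∧ (d : ℝ) ≤ D ∧ ShortR L d}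

lemma cnt_eq {L D : ℝ} (hL : 0 ≤ L) (hD : 0 ≤ D) : cnt L D = (AL ⌊L⌋₊ ⌊D⌋₊).card := by
  refine Nat.subtype_card _ fun d => ?_
  rw [mem_AL]
  constructor
  · rintro ⟨⟨-, h2⟩, h3, x, hx, n, hn, hnL, hT⟩
    exact ⟨h3, (Nat.le_floor_iff hD).1 h2, x, hx, n, hn, (Nat.le_floor_iff hL).1 hnL, hT⟩
  · rintro ⟨h1, h2, x, hx, n, hn, hnL, hT⟩
    exact ⟨⟨h1.pos, (Nat.le_floor_iff hD).2 h2⟩, h1, x, hx, n, hn,
      (Nat.le_floor_iff hL).2 hnL, hT⟩

theorem part_a : ∃ C : ℝ, 0 < C ∧ ∀ D L : ℝ, 1 ≤ D → 2 ≤ L →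
    (cnt L D : ℝ) ≤ C * D ^ (1 - 1 / (24 * Real.log L)) := by
  obtain ⟨C, hC, h⟩ := AL_first
  refine ⟨C, hC, fun D L hD hL => ?_⟩
  rw [cnt_eq (by linarith) (by linarith)]
  refine (h _ _).trans (mul_le_mul_of_nonneg_left ?_ hC.le)
  set l : ℝ := ((2 * ⌊L⌋₊ ^ 3 : ℕ) : ℝ) + 3 with hl
  have hl3 : 3 ≤ l := by
    rw [hl]
    have : (0 : ℝ) ≤ ((2 * ⌊L⌋₊ ^ 3 : ℕ) : ℝ) := by positivity
    linarith
  have hfl : (⌊L⌋₊ : ℝ) ≤ L := Nat.floor_le (by linarith)
  have hl6 : l ≤ L ^ 6 := by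
    have h1 : (⌊L⌋₊ : ℝ) ^ 3 ≤ L ^ 3 := pow_le_pow_left₀ (by positivity) hfl 3
    have h2 : (8 : ℝ) ≤ L ^ 3 := by
      calc (8 : ℝ) = 2 ^ 3 := by norm_num
        _ ≤ L ^ 3 := pow_le_pow_left₀ (by norm_num) hL 3
    rw [hl]
    push_cast
    nlinarith
  have hlog : Real.log l ≤ 6 * Real.log L := by
    have := Real.log_le_log (by linarith) hl6
    rwa [Real.log_pow] at this
  have hlog1 : 1 ≤ Real.log l := by
    rw [Real.le_log_iff_exp_le (by linarith)]
    have := Real.exp_one_lt_d9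
    linarith
  have h24 : 1 / (24 * Real.log L) ≤ 1 / (4 * Real.log l) :=
    one_div_le_one_div_of_le (by linarith) (by linarith)
  have h4 : 1 / (4 * Real.log l) ≤ 1 / 4 :=
    one_div_le_one_div_of_le (by norm_num) (by linarith)
  calc (⌊D⌋₊ : ℝ) ^ (1 - 1 / (4 * Real.log l)) ≤ D ^ (1 - 1 / (4 * Real.log l)) :=
        Real.rpow_le_rpow (by positivity) (Nat.floor_le (by linarith)) (by linarith)
    _ ≤ _ := Real.rpow_le_rpow_of_exponent_le hD (by linarith)

/-- an elementary limit -/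
lemma tendsto_aux (a b c e1 e2 : ℝ) (h1 : e1 < 0) (h2 : 0 < e2) :
    Tendsto (fun D : ℝ => a + b / Real.log D + c * D ^ e1 + D ^ (-e2)) atTop (𝓝 a) := by
  have t1 : Tendsto (fun D : ℝ => b / Real.log D) atTop (𝓝 0) :=
    tendsto_const_nhds.div_atTop Real.tendsto_log_atTop
  have t2 : Tendsto (fun D : ℝ => c * D ^ e1) atTop (𝓝 0) := by
    have := (tendsto_rpow_neg_atTop (y := -e1) (by linarith)).const_mul c
    simpa using this
  have t3 : Tendsto (fun D : ℝ => D ^ (-e2)) atTop (𝓝 0) := tendsto_rpow_neg_atTop h2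
  have := ((tendsto_const_nhds (x := a)).add t1).add t2 |>.add t3
  simpa using this

theorem part_b (θ ε : ℝ) (hθ : 0 < θ) (hθ1 : θ < 1 / 3) (hε : 0 < ε) :
    ∃ D₀ : ℝ, ∀ D ≥ D₀, (cnt (D ^ θ) D : ℝ) ≤ (θ + ε) * D := by
  obtain ⟨C, hC, h3⟩ := sum_E3
  -- the auxiliary parameter
  obtain ⟨e, he0, he1, he2, he3⟩ : ∃ e : ℝ, 0 < e ∧ e < 1 / 2 ∧ 3 * θ + e < 1 ∧
      (3 * θ + e) / (3 * (1 - e)) < θ + ε := by
    have hcont : ContinuousAt (fun e : ℝ => (3 * θ + e) / (3 * (1 - e))) 0 := by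
      refine ContinuousAt.div (by fun_prop) (by fun_prop) (by norm_num)
    have hlt : (fun e : ℝ => (3 * θ + e) / (3 * (1 - e))) 0 < θ + ε := by
      simp only [add_zero, sub_zero, mul_one]
      linarith
    have ev1 := hcont.eventually (gt_mem_nhds hlt)
    have ev2 : ∀ᶠ e : ℝ in 𝓝 0, e < 1 / 2 := gt_mem_nhds (by norm_num)
    have ev3 : ∀ᶠ e : ℝ in 𝓝 0, e < 1 - 3 * θ := gt_mem_nhds (by linarith)
    have ev := ((ev1.and (ev2.and ev3)).filter_mono (nhdsWithin_le_nhds (s := Set.Ioi (0 : ℝ)))).and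
      (self_mem_nhdsWithin (s := Set.Ioi (0 : ℝ)) (a := (0 : ℝ)))
    obtain ⟨e, ⟨h1, h2, h3⟩, h4⟩ := ev.exists
    exact ⟨e, h4, h2, by linarith, h1⟩
  set κ := 3 * θ + e with hκ
  have hκ0 : 0 < κ := by positivity
  set δ := e / κ with hδ
  have hδ0 : 0 < δ := by positivity
  have hδ1 : δ ≤ 1 := by
    rw [hδ, div_le_one hκ0]
    linarith
  set C' := Real.log 2 + C + 2 / δ with hC'
  have htend := tendsto_aux (κ / (3 * (1 - e))) (C' / (3 * (1 - e))) (2 / (1 - e)) (3 * θ - 1) e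
    (by linarith) he0
  have hev := htend.eventually (gt_mem_nhds he3)
  obtain ⟨D₁, hD₁⟩ := eventually_atTop.1 hev
  refine ⟨max D₁ 3, fun D hD => ?_⟩
  have hD1 : D₁ ≤ D := (le_max_left _ _).trans hD
  have hD3 : (3 : ℝ) ≤ D := (le_max_right _ _).trans hD
  have hD0 : 0 < D := by linarith
  have hfin := hD₁ D hD1
  have hlogD : 1 ≤ Real.log D := by
    rw [Real.le_log_iff_exp_le hD0]
    have := Real.exp_one_lt_d9
    linarith
  rw [cnt_eq (by positivity) hD0.le]
  set L := ⌊D ^ θ⌋₊ with hL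
  set x := ⌊D⌋₊ with hx
  set A := AL L x with hA
  have hx1 : 1 ≤ x := Nat.le_floor (by push_cast; linarith)
  have hxD : (x : ℝ) ≤ D := Nat.floor_le hD0.le
  have hLD : (L : ℝ) ≤ D ^ θ := Nat.floor_le (by positivity)
  have hE : ∀ p ∈ EL L, p.Prime := fun p hp => (prime_of_mem_EL hp).1
  have hcard : ((EL L).card : ℝ) ≤ 2 * D ^ (3 * θ) := by
    have h1 : ((EL L).card : ℝ) ≤ ((2 * L ^ 3 : ℕ) : ℝ) := by exact_mod_cast card_EL L
    refine h1.trans ?_
    push_cast
    have h2 : (L : ℝ) ^ 3 ≤ (D ^ θ) ^ 3 := pow_le_pow_left₀ (by positivity) hLD 3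
    have h4 : (D ^ θ) ^ 3 = D ^ (3 * θ) := by
      rw [← Real.rpow_natCast, ← Real.rpow_mul hD0.le]
      ring_nf
    linarith
  set Y := ⌈D ^ κ⌉₊ with hY
  have hY1 : 1 ≤ Y := Nat.one_le_ceil_iff.2 (by positivity)
  have hYlo : D ^ κ ≤ Y := Nat.le_ceil _
  have hDκ1 : 1 ≤ D ^ κ := Real.one_le_rpow (by linarith) hκ0.le
  have hYup : (Y : ℝ) ≤ 2 * D ^ κ := by
    have := Nat.ceil_lt_add_one (a := D ^ κ) (by positivity)
    linarith
  have hlogY : Real.log Y ≤ Real.log 2 + κ * Real.log D := by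
    have h1 : (0 : ℝ) < Y := by exact_mod_cast hY1
    have h2 := Real.log_le_log h1 hYup
    rw [Real.log_mul (by norm_num) (by positivity), Real.log_rpow hD0] at h2
    exact h2
  have hS := h3 (EL L) hE Y hY1 δ hδ0 hδ1
  have hEY : ((EL L).card : ℝ) * ((Y : ℝ) ^ (δ - 1) / δ) ≤ 2 / δ := by
    have h1 : (Y : ℝ) ^ (δ - 1) ≤ D ^ (-(3 * θ)) := by
      calc (Y : ℝ) ^ (δ - 1) ≤ (D ^ κ) ^ (δ - 1) :=
            Real.rpow_le_rpow_of_nonpos (by positivity) hYlo (by linarith)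
        _ = D ^ (-(3 * θ)) := by
            rw [← Real.rpow_mul hD0.le]
            congr 1
            rw [hδ, mul_sub, mul_div_cancel₀ _ hκ0.ne', hκ]
            ring
    calc ((EL L).card : ℝ) * ((Y : ℝ) ^ (δ - 1) / δ)
        ≤ (2 * D ^ (3 * θ)) * (D ^ (-(3 * θ)) / δ) :=
          mul_le_mul hcard (div_le_div_of_nonneg_right h1 hδ0.le) (by positivity) (by positivity)
      _ = 2 / δ := by
          rw [Real.rpow_neg hD0.le]
          field_simp
  have hS' : ∑ p ∈ EL L, Real.log p * (1 / ((p : ℝ) - 1)) ≤ κ * Real.log D + C' := by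
    rw [hC']
    linarith
  have hAprop : ∀ m ∈ A, (1 ≤ m ∧ m ≤ x) ∧ Odd m ∧ ¬ 3 ∣ m := by
    intro m hm
    rw [hA, mem_AL] at hm
    exact ⟨hm.1, hm.2.1, hm.2.2.three hm.2.1⟩
  have hAE : ∀ m ∈ A, ∀ p, p.Prime → p ∣ m → p ∈ EL L := by
    intro m hm p hp hpm
    rw [hA, mem_AL] at hm
    exact hm.2.2.mem_EL hm.2.1 hp hpm
  have hup := sum_log_le (EL L) hE x hx1 A hAprop hAE
  have hup2 : ∑ m ∈ A, Real.log m ≤
      D / 3 * (κ * Real.log D + C') + 2 * D ^ (3 * θ) * Real.log D := by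
    refine hup.trans (add_le_add ?_ ?_)
    · have hS0 : 0 ≤ ∑ p ∈ EL L, Real.log p * (1 / ((p : ℝ) - 1)) := by
        refine sum_nonneg fun p hp => ?_
        have : (1 : ℝ) < p := by exact_mod_cast (hE p hp).one_lt
        exact mul_nonneg (Real.log_nonneg this.le) (one_div_nonneg.2 (by linarith))
      exact mul_le_mul (by linarith) hS' hS0 (by positivity)
    · have h1 : Real.log x ≤ Real.log D :=
        Real.log_le_log (by exact_mod_cast hx1) hxD
      exact mul_le_mul hcard h1 (Real.log_natCast_nonneg x) (by positivity)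
  -- lower bound
  have hlow : ((A.card : ℝ) - D ^ (1 - e)) * ((1 - e) * Real.log D) ≤ ∑ m ∈ A, Real.log m := by
    have h1 : (A.card : ℝ) - D ^ (1 - e) ≤
        ((A.filter fun m : ℕ => D ^ (1 - e) < (m : ℝ)).card : ℝ) := by
      have h2 := card_filter_add_card_filter_not (s := A) (fun m : ℕ => D ^ (1 - e) < (m : ℝ))
      have h3 : ((A.filter fun m : ℕ => ¬ D ^ (1 - e) < (m : ℝ)).card : ℝ) ≤ D ^ (1 - e) := by
        have h4 : (A.filter fun m : ℕ => ¬ D ^ (1 - e) < (m : ℝ)) ⊆ Icc 1 ⌊D ^ (1 - e)⌋₊ := by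
          intro m hm
          rw [mem_filter, not_lt] at hm
          rw [mem_Icc]
          exact ⟨(hAprop m hm.1).1.1, Nat.le_floor hm.2⟩
        have h5 := card_le_card h4
        rw [Nat.card_Icc, Nat.add_sub_cancel] at h5
        calc _ ≤ ((⌊D ^ (1 - e)⌋₊ : ℕ) : ℝ) := by exact_mod_cast h5
          _ ≤ _ := Nat.floor_le (by positivity)
      have h2' : (((A.filter fun m : ℕ => D ^ (1 - e) < (m : ℝ)).card : ℕ) : ℝ) +
          ((A.filter fun m : ℕ => ¬ D ^ (1 - e) < (m : ℝ)).card : ℝ) =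
          (A.card : ℝ) := by exact_mod_cast h2
      linarith
    have hpos : 0 ≤ (1 - e) * Real.log D := mul_nonneg (by linarith) (by linarith)
    calc _ ≤ ((A.filter fun m : ℕ => D ^ (1 - e) < (m : ℝ)).card : ℝ) *
          ((1 - e) * Real.log D) := mul_le_mul_of_nonneg_right h1 hpos
      _ = ∑ m ∈ A.filter (fun m : ℕ => D ^ (1 - e) < (m : ℝ)), (1 - e) * Real.log D := by
          rw [sum_const, nsmul_eq_mul]
      _ ≤ ∑ m ∈ A.filter (fun m : ℕ => D ^ (1 - e) < (m : ℝ)), Real.log m := by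
          refine sum_le_sum fun m hm => ?_
          rw [mem_filter] at hm
          rw [← Real.log_rpow hD0]
          exact Real.log_le_log (by positivity) hm.2.le
      _ ≤ _ := by
          refine sum_le_sum_of_subset_of_nonneg (filter_subset _ _) fun m hm _ => ?_
          exact Real.log_natCast_nonneg m
  have hcomb := hlow.trans hup2
  have h1e : 0 < 1 - e := by linarith
  have hlog0 : 0 < Real.log D := by linarith
  have hkey : (A.card : ℝ) ≤ D * (κ / (3 * (1 - e)) + C' / (3 * (1 - e)) / Real.log D +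
      2 / (1 - e) * D ^ (3 * θ - 1) + D ^ (-e)) := by
    have h1 : D * D ^ (3 * θ - 1) = D ^ (3 * θ) := by
      rw [← Real.rpow_one_add' hD0.le (by linarith)]
      congr 1
      ring
    have h2 : D * D ^ (-e) = D ^ (1 - e) := by
      rw [← Real.rpow_one_add' hD0.le (by linarith)]
      congr 1
    have h4 : (A.card : ℝ) - D ^ (1 - e) ≤
        (D / 3 * (κ * Real.log D + C') + 2 * D ^ (3 * θ) * Real.log D) /
          ((1 - e) * Real.log D) := by
      rw [le_div_iff₀ (by positivity)]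
      exact hcomb
    have h5 : (D / 3 * (κ * Real.log D + C') + 2 * D ^ (3 * θ) * Real.log D) /
          ((1 - e) * Real.log D) = D * (κ / (3 * (1 - e)) + C' / (3 * (1 - e)) / Real.log D) +
          2 / (1 - e) * D ^ (3 * θ) := by
      field_simp
    rw [h5] at h4
    calc (A.card : ℝ) ≤ D * (κ / (3 * (1 - e)) + C' / (3 * (1 - e)) / Real.log D) +
          2 / (1 - e) * D ^ (3 * θ) + D ^ (1 - e) := by linarith
      _ = _ := by rw [← h1, ← h2]; ring
  calc (A.card : ℝ) ≤ _ := hkey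
    _ ≤ D * (θ + ε) := mul_le_mul_of_nonneg_left hfin.le hD0.le
    _ = _ := mul_comm _ _

theorem part_c (α ε : ℝ) (hα : 1 ≤ α) (hε : 0 < ε) :
    ∃ D₀ : ℝ, ∀ D ≥ D₀, (cnt (Real.log D ^ α) D : ℝ) ≤ D ^ (1 - 1 / α + ε) := by
  have hα0 : 0 < α := by linarith
  set e := min (ε / 2) (1 / (2 * α)) with he
  have he0 : 0 < e := lt_min (by linarith) (by positivity)
  have he1 : e ≤ ε / 2 := min_le_left _ _
  have he2 : e ≤ 1 / (2 * α) := min_le_right _ _
  set η := 1 / α - e with hη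
  have h12 : 1 / (2 * α) = 1 / α / 2 := by
    field_simp
  have h1α : 1 / α ≤ 1 := by
    rw [div_le_one hα0]
    exact hα
  have h1α0 : 0 < 1 / α := by positivity
  have hη0 : 0 < η := by
    rw [hη]
    rw [h12] at he2
    linarith
  have hη1 : η < 1 := by
    rw [hη]
    linarith
  have hαη : α * η < 1 := by
    rw [hη, mul_sub, mul_one_div_cancel hα0.ne']
    have := mul_pos hα0 he0
    linarith
  set K := Kη η * (2 : ℝ) ^ η / η with hK
  have hK0 : 0 < K := by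
    have := Kη_pos hη1
    positivity
  -- the function of `t = log D`
  have hlim : Tendsto (fun t : ℝ => (2 * (Real.log 2 + α * Real.log t) + K * t ^ (α * η)) / t)
      atTop (𝓝 0) := by
    have t1 : Tendsto (fun t : ℝ => 2 * Real.log 2 / t) atTop (𝓝 0) :=
      tendsto_const_nhds.div_atTop tendsto_id
    have t2 : Tendsto (fun t : ℝ => 2 * α * (Real.log t / t)) atTop (𝓝 0) := by
      have h := (Real.isLittleO_log_id_atTop.tendsto_div_nhds_zero).const_mul (2 * α)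
      simpa using h
    have t3 : Tendsto (fun t : ℝ => K * t ^ (-(1 - α * η))) atTop (𝓝 0) := by
      have := (tendsto_rpow_neg_atTop (y := 1 - α * η) (by linarith)).const_mul K
      simpa using this
    have h := (t1.add t2).add t3
    rw [add_zero, add_zero] at h
    refine h.congr' ?_
    filter_upwards [eventually_gt_atTop 0] with t ht
    have h2 : t ^ (-(1 - α * η)) = t ^ (α * η) / t := by
      rw [show -(1 - α * η) = α * η - 1 by ring, Real.rpow_sub ht, Real.rpow_one]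
    rw [h2]
    field_simp
  have hev := hlim.eventually (gt_mem_nhds (show (0 : ℝ) < ε / 2 by linarith))
  have hev2 := (Real.tendsto_log_atTop.eventually (hev.and (eventually_ge_atTop 1)))
  obtain ⟨D₁, hD₁⟩ := eventually_atTop.1 hev2
  refine ⟨max D₁ 3, fun D hD => ?_⟩
  obtain ⟨h1, h2⟩ := hD₁ D ((le_max_left _ _).trans hD)
  have hD3 : (3 : ℝ) ≤ D := (le_max_right _ _).trans hD
  have hD0 : 0 < D := by linarith
  set t := Real.log D with ht
  have ht0 : 0 < t := by linarith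
  rw [cnt_eq (by positivity) hD0.le]
  refine (AL_second hη0 hη1 _ _).trans ?_
  set L := ⌊t ^ α⌋₊ with hL
  have hLt : (L : ℝ) ≤ t ^ α := Nat.floor_le (by positivity)
  have htα : 1 ≤ t ^ α := Real.one_le_rpow h2 hα0.le
  have hA : ((L + 1 : ℕ) : ℝ) ^ 2 ≤ Real.exp (2 * (Real.log 2 + α * Real.log t)) := by
    have h3 : ((L + 1 : ℕ) : ℝ) ≤ 2 * t ^ α := by
      push_cast
      linarith
    have h4 : 2 * t ^ α = Real.exp (Real.log 2 + α * Real.log t) := by
      rw [Real.exp_add, Real.exp_log (by norm_num), mul_comm α, ← Real.rpow_def_of_pos ht0]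
    calc ((L + 1 : ℕ) : ℝ) ^ 2 ≤ (2 * t ^ α) ^ 2 := pow_le_pow_left₀ (by positivity) h3 2
      _ = _ := by
        rw [h4, ← Real.exp_nat_mul]
        norm_num
  have hB : (⌊D⌋₊ : ℝ) ^ (1 - η) ≤ D ^ (1 - η) :=
    Real.rpow_le_rpow (by positivity) (Nat.floor_le hD0.le) (by linarith)
  have hC : Real.exp (Kη η * (((2 * L : ℕ) : ℝ) ^ η / η)) ≤ Real.exp (K * t ^ (α * η)) := by
    rw [Real.exp_le_exp]
    have h3 : ((2 * L : ℕ) : ℝ) ^ η ≤ 2 ^ η * t ^ (α * η) := by
      push_cast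
      rw [Real.mul_rpow (by norm_num) (by positivity), Real.rpow_mul ht0.le]
      exact mul_le_mul_of_nonneg_left (Real.rpow_le_rpow (by positivity) hLt hη0.le)
        (by positivity)
    calc Kη η * (((2 * L : ℕ) : ℝ) ^ η / η) ≤ Kη η * (2 ^ η * t ^ (α * η) / η) :=
          mul_le_mul_of_nonneg_left (div_le_div_of_nonneg_right h3 hη0.le) (Kη_pos hη1).le
      _ = _ := by rw [hK]; ring
  have hDexp : ∀ s : ℝ, D ^ s = Real.exp (t * s) := fun s => Real.rpow_def_of_pos hD0 s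
  calc ((L + 1 : ℕ) : ℝ) ^ 2 * ((⌊D⌋₊ : ℝ) ^ (1 - η) *
        Real.exp (Kη η * (((2 * L : ℕ) : ℝ) ^ η / η)))
      ≤ Real.exp (2 * (Real.log 2 + α * Real.log t)) *
        (D ^ (1 - η) * Real.exp (K * t ^ (α * η))) := by
        refine mul_le_mul hA (mul_le_mul hB hC (by positivity) (by positivity)) (by positivity)
          (by positivity)
    _ = Real.exp (2 * (Real.log 2 + α * Real.log t) + K * t ^ (α * η) + t * (1 - η)) := by
        rw [hDexp, ← Real.exp_add, ← Real.exp_add]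
        congr 1
        ring
    _ ≤ D ^ (1 - 1 / α + ε) := by
        rw [hDexp, Real.exp_le_exp]
        rw [div_lt_iff₀ ht0] at h1
        have h3 : t * (1 - 1 / α + ε) = t * (1 - η) + t * (ε - e) := by
          rw [hη]; ring
        rw [h3]
        have h4 : t * (ε / 2) ≤ t * (ε - e) := mul_le_mul_of_nonneg_left (by linarith) ht0.le
        linarith

end Pool.Agent.N43.SC
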