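import Mathlib
import Pool.Agent.N43.SC.Final

/-!
# All short cycles of almost all maps `T_d`
-/

set_option autoImplicit false

namespace Pool.Agent.N43.SC

open Finset Filter Topology

lemma T_mul {g : ℤ} (hg : Odd g) {m : ℤ} (hm : Odd m) (z : ℤ) : T (g * m) (g * z) = g * T m z := by
  unfold T
  have h : Even (g * z) ↔ Even z := by
    rw [Int.even_mul]
    have := Int.not_even_iff_odd.2 hg
    tauto
  by_cases hz : Even z
  · rw [if_pos (h.2 hz), if_pos hz]
    obtain ⟨y, rfl⟩ := hz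
    have h1 : g * (y + y) = 2 * (g * y) := by ring
    have h2 : y + y = 2 * y := by ring
    rw [h1, h2, Int.mul_ediv_cancel_left _ (by norm_num), Int.mul_ediv_cancel_left _ (by norm_num)]
  · rw [if_neg (fun h' => hz (h.1 h')), if_neg hz]
    have hm : Even (3 * z + m) :=
      (((by decide : Odd (3 : ℤ)).mul (Int.not_even_iff_odd.1 hz)).add_odd hm)
    obtain ⟨y, hy⟩ := hm
    have h1 : 3 * (g * z) + g * m = 2 * (g * y) := by linear_combination g * hy
    have h2 : 3 * z + m = 2 * y := by linear_combination hy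
    rw [h1, h2, Int.mul_ediv_cancel_left _ (by norm_num),
      Int.mul_ediv_cancel_left _ (by norm_num)]

lemma iterate_mul {g : ℤ} (hg : Odd g) {m : ℤ} (hm : Odd m) (z : ℤ) (n : ℕ) :
    (T (g * m))^[n] (g * z) = g * (T m)^[n] z := by
  induction n with
  | zero => rfl
  | succ n ih => rw [Function.iterate_succ_apply', Function.iterate_succ_apply', ih, T_mul hg hm]

/-- a cycle of `T_d` is a multiple of a primitive cycle for a divisor of `d` -/
lemma short_div {d : ℕ} (hd : Odd d) {x : ℤ} {n L : ℕ} (hn : 1 ≤ n) (hnL : n ≤ L)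
    (h : (T d)^[n] x = x) :
    ∃ m : ℕ, m ∣ d ∧ m * Int.gcd x d = d ∧ Odd m ∧ Short L m := by
  have hd0 : (d : ℤ) ≠ 0 := by
    have := hd.pos
    omega
  have hg : 0 < Int.gcd x d := Int.gcd_pos_of_ne_zero_right x hd0
  have hgd : Int.gcd x d ∣ d := by
    have := Int.gcd_dvd_right x (d : ℤ)
    exact_mod_cast this
  obtain ⟨m, hm⟩ := hgd
  obtain ⟨z, hz⟩ := Int.gcd_dvd_left x (d : ℤ)
  have hodd : Odd (Int.gcd x d * m) := by rw [← hm]; exact hd
  have hgodd : Odd (Int.gcd x d) := Nat.Odd.of_mul_left hodd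
  have hmodd : Odd m := Nat.Odd.of_mul_right hodd
  have hcop : IsCoprime z m := by
    rw [Int.isCoprime_iff_gcd_eq_one]
    have h0 : ((Int.gcd x d : ℤ)) * m = d := by exact_mod_cast hm.symm
    have h1 : Int.gcd ((Int.gcd x d : ℤ) * z) ((Int.gcd x d : ℤ) * m) =
        Int.gcd x d * Int.gcd z m := by
      rw [Int.gcd_mul_left, Int.natAbs_natCast]
    rw [← hz, h0] at h1
    have h2 : Int.gcd x d * 1 = Int.gcd x d * Int.gcd z m := by rw [mul_one]; exact h1
    exact (Nat.eq_of_mul_eq_mul_left hg h2).symm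
  refine ⟨m, ⟨_, by rw [mul_comm]; exact hm⟩, by rw [mul_comm]; exact hm.symm, hmodd, z, hcop, n,
    hn, hnL, ?_⟩
  have h3 := iterate_mul (g := (Int.gcd x d : ℤ)) (by exact_mod_cast hgodd)
    (m := (m : ℤ)) (by exact_mod_cast hmodd) z n
  have h4 : ((Int.gcd x d : ℤ)) * m = d := by exact_mod_cast hm.symm
  rw [h4, ← hz, h] at h3
  have h5 : (Int.gcd x d : ℤ) * (T m)^[n] z = (Int.gcd x d : ℤ) * z := by rw [← h3]; exact hz
  exact mul_left_cancel₀ (by exact_mod_cast hg.ne') h5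

open Classical in
/-- the odd `d ≤ x` with a divisor `m > M` such that `T_m` has a primitive cycle with at most `L`
elements -/
noncomputable def ZL (L x : ℕ) (M : ℝ) : Finset ℕ :=
  (Icc 1 x).filter fun d => ∃ m : ℕ, m ∣ d ∧ M < m ∧ Odd m ∧ Short L m

lemma mem_ZL {L x d : ℕ} {M : ℝ} :
    d ∈ ZL L x M ↔ (1 ≤ d ∧ d ≤ x) ∧ ∃ m : ℕ, m ∣ d ∧ M < m ∧ Odd m ∧ Short L m := by
  simp only [ZL, mem_filter, mem_Icc]

theorem card_ZL : ∃ C : ℝ, 0 < C ∧ ∀ (L x : ℕ) (M : ℝ), 0 < M →
    ((ZL L x M).card : ℝ) ≤ ((Nat.log 2 x + 1 : ℕ) : ℝ) *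
      (C * x * M ^ (-(1 / (4 * Real.log ((2 * L ^ 3 : ℕ) + 3))))) := by
  classical
  obtain ⟨C, hC, h⟩ := AL_first
  refine ⟨2 * C, by positivity, fun L x M hM => ?_⟩
  set η := 1 / (4 * Real.log ((2 * L ^ 3 : ℕ) + 3)) with hη
  have hη0 : 0 < η := by
    have : (1 : ℝ) < ((2 * L ^ 3 : ℕ) : ℝ) + 3 := by
      have : (0 : ℝ) ≤ ((2 * L ^ 3 : ℕ) : ℝ) := by positivity
      linarith
    have := Real.log_pos this
    positivity
  set B := (AL L x).filter (fun m : ℕ => M < (m : ℝ)) with hB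
  have h1 : ZL L x M ⊆ B.biUnion fun m => (Ioc 0 x).filter fun d => m ∣ d := by
    intro d hd
    rw [mem_ZL] at hd
    obtain ⟨hd, m, hmd, hMm, hodd, hs⟩ := hd
    have hm0 : 1 ≤ m := hodd.pos
    rw [mem_biUnion]
    refine ⟨m, ?_, ?_⟩
    · rw [hB, mem_filter, mem_AL]
      exact ⟨⟨⟨hm0, (Nat.le_of_dvd (by omega) hmd).trans hd.2⟩, hodd, hs⟩, hMm⟩
    · rw [mem_filter, mem_Ioc]
      exact ⟨⟨by omega, hd.2⟩, hmd⟩
  have h2 : ((ZL L x M).card : ℝ) ≤ ∑ m ∈ B, (x : ℝ) / m := by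
    have h3 := (card_le_card h1).trans card_biUnion_le
    have h4 : ((ZL L x M).card : ℝ) ≤ ∑ m ∈ B, (((Ioc 0 x).filter fun d => m ∣ d).card : ℝ) := by
      exact_mod_cast h3
    refine h4.trans (sum_le_sum fun m _ => ?_)
    rw [Nat.Ioc_filter_dvd_card_eq_div]
    exact Nat.cast_div_le
  refine h2.trans ?_
  have hmaps : ∀ m ∈ B, Nat.log 2 m ∈ range (Nat.log 2 x + 1) := by
    intro m hm
    rw [hB, mem_filter, mem_AL] at hm
    rw [mem_range]
    have := Nat.log_mono_right (b := 2) hm.1.1.2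
    omega
  rw [← sum_fiberwise_of_maps_to hmaps]
  calc ∑ j ∈ range (Nat.log 2 x + 1), ∑ m ∈ B with Nat.log 2 m = j, (x : ℝ) / m
      ≤ ∑ j ∈ range (Nat.log 2 x + 1), 2 * C * x * M ^ (-η) := by
        refine sum_le_sum fun j _ => ?_
        rcases (B.filter fun m => Nat.log 2 m = j).eq_empty_or_nonempty with he | ⟨m0, hm0⟩
        · rw [he, sum_empty]
          positivity
        · have hmem : ∀ m ∈ B.filter (fun m => Nat.log 2 m = j),
              2 ^ j ≤ m ∧ m ≤ 2 ^ (j + 1) ∧ M < m ∧ m ∈ AL L x := by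
            intro m hm
            rw [mem_filter, hB, mem_filter] at hm
            obtain ⟨⟨ha, hM'⟩, hj⟩ := hm
            have hm1 : 1 ≤ m := (mem_AL.1 ha).1.1
            refine ⟨?_, ?_, hM', ha⟩
            · rw [← hj]
              exact Nat.pow_log_le_self 2 (by omega)
            · rw [← hj]
              exact (Nat.lt_pow_succ_log_self (by norm_num) m).le
          have hcard : ((B.filter fun m => Nat.log 2 m = j).card : ℝ) ≤
              C * ((2 ^ (j + 1) : ℕ) : ℝ) ^ (1 - η) := by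
            refine le_trans ?_ (h L (2 ^ (j + 1)))
            have : (B.filter fun m => Nat.log 2 m = j) ⊆ AL L (2 ^ (j + 1)) := by
              intro m hm
              obtain ⟨-, h5, -, h6⟩ := hmem m hm
              rw [mem_AL] at h6 ⊢
              exact ⟨⟨h6.1.1, h5⟩, h6.2⟩
            exact_mod_cast card_le_card this
          have hM2 : M ≤ ((2 ^ (j + 1) : ℕ) : ℝ) := by
            obtain ⟨-, h5, h6, -⟩ := hmem m0 hm0
            have : (m0 : ℝ) ≤ ((2 ^ (j + 1) : ℕ) : ℝ) := by exact_mod_cast h5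
            linarith
          set P : ℝ := ((2 ^ (j + 1) : ℕ) : ℝ) with hP
          have hP0 : 0 < P := by rw [hP]; positivity
          have hPj : P = 2 * (2 : ℝ) ^ j := by
            rw [hP]
            push_cast
            ring
          calc ∑ m ∈ B with Nat.log 2 m = j, (x : ℝ) / m
              ≤ ∑ m ∈ B with Nat.log 2 m = j, (x : ℝ) / (2 : ℝ) ^ j := by
                refine sum_le_sum fun m hm => ?_
                refine div_le_div_of_nonneg_left (by positivity) (by positivity) ?_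
                exact_mod_cast (hmem m hm).1
            _ = ((B.filter fun m => Nat.log 2 m = j).card : ℝ) * ((x : ℝ) / (2 : ℝ) ^ j) := by
                rw [sum_const, nsmul_eq_mul]
            _ ≤ C * P ^ (1 - η) * ((x : ℝ) / (2 : ℝ) ^ j) :=
                mul_le_mul_of_nonneg_right hcard (by positivity)
            _ = 2 * C * x * P ^ (-η) := by
                have h7 : P ^ (1 - η) = P * P ^ (-η) := by
                  rw [sub_eq_add_neg, Real.rpow_add hP0, Real.rpow_one]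
                rw [h7, hPj]
                field_simp
            _ ≤ 2 * C * x * M ^ (-η) := by
                refine mul_le_mul_of_nonneg_left ?_ (by positivity)
                exact Real.rpow_le_rpow_of_nonpos hM hM2 (by linarith)
    _ = _ := by
        rw [sum_const, card_range, nsmul_eq_mul]

/-- the number of the odd positive integers `d ≤ D` such that `T_d` has a cycle with at most `L`
elements through an integer `x` with `gcd (x, d) < d / M` -/
noncomputable def cntAll (L M D : ℝ) : ℕ :=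
  Nat.card {d : ℕ // Odd d ∧ (d : ℝ) ≤ D ∧
    ∃ x : ℤ, (∃ n : ℕ, 1 ≤ n ∧ (n : ℝ) ≤ L ∧ (T d)^[n] x = x) ∧ M * (Int.gcd x d : ℝ) < d}

lemma cntAll_le {L M D : ℝ} (hL : 0 ≤ L) (hD : 0 ≤ D) :
    cntAll L M D ≤ (ZL ⌊L⌋₊ ⌊D⌋₊ M).card := by
  classical
  have h : cntAll L M D ≤ Nat.card (ZL ⌊L⌋₊ ⌊D⌋₊ M : Set ℕ) := by
    unfold cntAll
    refine Nat.card_mono (Finset.finite_toSet _) ?_
    rintro d ⟨hodd, hdD, x, ⟨n, hn, hnL, hT⟩, hM⟩
    rw [mem_coe, mem_ZL]
    obtain ⟨m, hmd, hmg, hmodd, hs⟩ := short_div hodd hn ((Nat.le_floor_iff hL).2 hnL) hT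
    refine ⟨⟨hodd.pos, (Nat.le_floor_iff hD).2 hdD⟩, m, hmd, ?_, hmodd, hs⟩
    have h1 : (m : ℝ) * (Int.gcd x d : ℝ) = d := by exact_mod_cast hmg
    rw [← h1] at hM
    exact lt_of_mul_lt_mul_right hM (by positivity)
  rwa [Nat.card_coe_set_eq, Set.ncard_coe_finset] at h

theorem part_d (δ ε : ℝ) (hδ : 0 < δ) (hε : 0 < ε) :
    ∃ D₀ : ℝ, ∀ D ≥ D₀,
      (cntAll (D ^ (δ / (48 * Real.log (Real.log D)))) (D ^ δ) D : ℝ) ≤ ε * D := by
  obtain ⟨C, hC, h⟩ := card_ZL
  have hlim : Tendsto (fun t : ℝ => 8 * Real.log 5 * (Real.log t / t)) atTop (𝓝 0) := by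
    have h := (Real.isLittleO_log_id_atTop.tendsto_div_nhds_zero).const_mul (8 * Real.log 5)
    simpa using h
  have hev := hlim.eventually (gt_mem_nhds (show (0 : ℝ) < δ / 2 by linarith))
  have hev2 := (Real.tendsto_log_atTop.eventually
    ((hev.and (eventually_ge_atTop 3)).and (eventually_ge_atTop (3 * C / ε))))
  obtain ⟨D₁, hD₁⟩ := eventually_atTop.1 hev2
  refine ⟨max D₁ 3, fun D hD => ?_⟩
  obtain ⟨⟨h1, h2⟩, h3⟩ := hD₁ D ((le_max_left _ _).trans hD)
  have hD3 : (3 : ℝ) ≤ D := (le_max_right _ _).trans hD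
  have hD0 : 0 < D := by linarith
  set t := Real.log D with ht
  have ht0 : 0 < t := by linarith
  have hlt : 0 < Real.log t := Real.log_pos (by linarith)
  set L := ⌊D ^ (δ / (48 * Real.log t))⌋₊ with hL
  have h4 := (Nat.cast_le (α := ℝ)).2 (cntAll_le (L := D ^ (δ / (48 * Real.log t)))
    (M := D ^ δ) (D := D) (by positivity) hD0.le)
  refine h4.trans ((h _ _ _ (by positivity)).trans ?_)
  rw [← hL]
  set l : ℝ := ((2 * L ^ 3 : ℕ) : ℝ) + 3 with hl
  have hl3 : 3 ≤ l := by
    rw [hl]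
    have : (0 : ℝ) ≤ ((2 * L ^ 3 : ℕ) : ℝ) := by positivity
    linarith
  have hlog1 : 0 < Real.log l := Real.log_pos (by linarith)
  have hDexp : ∀ s : ℝ, D ^ s = Real.exp (t * s) := fun s => Real.rpow_def_of_pos hD0 s
  have hl5 : l ≤ 5 * Real.exp (δ * t / (16 * Real.log t)) := by
    have h5 : (L : ℝ) ≤ Real.exp (t * (δ / (48 * Real.log t))) := by
      rw [← hDexp]
      exact Nat.floor_le (by positivity)
    have h6 : (L : ℝ) ^ 3 ≤ Real.exp (δ * t / (16 * Real.log t)) := by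
      calc (L : ℝ) ^ 3 ≤ Real.exp (t * (δ / (48 * Real.log t))) ^ 3 :=
            pow_le_pow_left₀ (by positivity) h5 3
        _ = _ := by
          rw [← Real.exp_nat_mul]
          congr 1
          push_cast
          field_simp
          norm_num
    have h7 : 1 ≤ Real.exp (δ * t / (16 * Real.log t)) := Real.one_le_exp (by positivity)
    rw [hl]
    push_cast
    linarith
  have hlog2 : Real.log l ≤ Real.log 5 + δ * t / (16 * Real.log t) := by
    have := Real.log_le_log (by linarith) hl5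
    rwa [Real.log_mul (by norm_num) (Real.exp_pos _).ne', Real.log_exp] at this
  -- the saving
  have hkey : 2 * Real.log t ≤ δ * t * (1 / (4 * Real.log l)) := by
    rw [mul_one_div, le_div_iff₀ (by positivity)]
    have h5 : Real.log t * (δ * t / (16 * Real.log t)) = δ * t / 16 := by
      field_simp
    have h6 : 8 * Real.log 5 * Real.log t ≤ δ / 2 * t := by
      have : 8 * Real.log 5 * (Real.log t / t) = 8 * Real.log 5 * Real.log t / t := by ring
      rw [this, div_lt_iff₀ ht0] at h1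
      exact h1.le
    have h7 : 2 * Real.log t * (4 * Real.log l) ≤
        2 * Real.log t * (4 * (Real.log 5 + δ * t / (16 * Real.log t))) :=
      mul_le_mul_of_nonneg_left (by linarith) (by positivity)
    nlinarith
  have hsave : (D ^ δ) ^ (-(1 / (4 * Real.log l))) ≤ 1 / t ^ 2 := by
    rw [← Real.rpow_mul hD0.le, hDexp]
    have h5 : Real.exp (t * (δ * -(1 / (4 * Real.log l)))) ≤ Real.exp (-(2 * Real.log t)) := by
      rw [Real.exp_le_exp]
      linarith
    refine h5.trans (le_of_eq ?_)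
    rw [Real.exp_neg, mul_comm, Real.exp_mul, Real.exp_log ht0, one_div]
    norm_num
  have hlogx : ((Nat.log 2 ⌊D⌋₊ + 1 : ℕ) : ℝ) ≤ 3 * t := by
    have hfl : 1 ≤ ⌊D⌋₊ := Nat.le_floor (by push_cast; linarith)
    have h5 : ((2 : ℝ)) ^ Nat.log 2 ⌊D⌋₊ ≤ D := by
      have h6 : ((2 ^ Nat.log 2 ⌊D⌋₊ : ℕ) : ℝ) ≤ (⌊D⌋₊ : ℝ) := by
        exact_mod_cast Nat.pow_log_le_self 2 (by omega)
      push_cast at h6
      exact h6.trans (Nat.floor_le hD0.le)
    have h6 := Real.log_le_log (by positivity) h5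
    rw [Real.log_pow, ← ht] at h6
    have h7 := Real.log_two_gt_d9
    have h8 : (0 : ℝ) ≤ Nat.log 2 ⌊D⌋₊ := by positivity
    push_cast
    nlinarith
  calc ((Nat.log 2 ⌊D⌋₊ + 1 : ℕ) : ℝ) * (C * (⌊D⌋₊ : ℝ) * (D ^ δ) ^ (-(1 / (4 * Real.log l))))
      ≤ (3 * t) * (C * D * (1 / t ^ 2)) := by
        refine mul_le_mul hlogx ?_ (by positivity) (by positivity)
        refine mul_le_mul (mul_le_mul_of_nonneg_left (Nat.floor_le hD0.le) hC.le) hsave
          (by positivity) (by positivity)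
    _ = (3 * C / t) * D := by
        field_simp
    _ ≤ ε * D := by
        refine mul_le_mul_of_nonneg_right ?_ hD0.le
        rw [div_le_iff₀ ht0]
        rw [div_le_iff₀ hε] at h3
        linarith

end Pool.Agent.N43.SC
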