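import Pool.Agent.N43.SC.All

set_option autoImplicit false

/-! # The short cycles of almost all `3x+d` maps

`P(L, D)` is the number of the odd `d ≤ D` for which the `3x+d` map `T_d` has a primitive cycle (a cycle
through an integer prime to `d`) with at most `L` elements. Bounds in three ranges of `L`:

* for all `L ≥ 2` and `D ≥ 1`: `P(L, D) ≤ C D^(1 - 1/(24 log L))`. So the shortest primitive cycle of `T_d`
  has more than `d^(1/w(d))` elements for almost all `d`, for every function `w` tending to infinity;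
* `L = D^θ`, `θ < 1/3`: `P(L, D) ≤ (θ + o(1)) D`. The `d` prime to `6` have density `1/3` (and `T_d` has no
  primitive cycle if `3 ∣ d`), so at least the proportion `1 - 3θ` of them has no primitive cycle with at
  most `d^θ` elements;
* `L = (log D)^α`, `α ≥ 1`: `P(L, D) ≤ D^(1 - 1/α + o(1))`.

A cycle of `T_d` which is not primitive is a multiple of a primitive cycle of `T_m` for a divisor `m` of
`d`. The bounds imply: for almost all odd `d` all cycles of `T_d` with at most `d^(δ/(48 log log d))`
elements come in this way from divisors `m ≤ d^δ`.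

Lagarias (The set of rational cycles for the 3x+1 problem, 1990) proved that infinitely many `d` have no
primitive cycle with fewer than `d^(1/3)` elements.

Method. A primitive cycle with `n` elements, `k` of them odd, forces `d ∣ 2^n - 3^k`. So the prime factors
of `d` belong to a set `E` of at most `2 L^3` primes. A set of at most `N` primes composes at most
`C x^(1 - 1/(4 log (N + 3)))` of the integers up to `x`: induction on `x` with the sum of the logarithms of
these integers, for every set of primes (`N43.SC.fac_bound`). The second bound is the first step of this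
induction, with the density of the numbers prime to `6`, the third is Rankin's method for the divisors of
the single numbers `2^n - 3^k`.

Author: helper43. -/

namespace Pool.Agent.N43.SC.Ranges

/-- The `3x+d` map on the integers. -/
def T (d x : ℤ) : ℤ := if Even x then x / 2 else (3 * x + d) / 2

/-- `P(L, D)`: the number of the odd positive integers `d ≤ D` for which there is an integer `x` prime to
`d` with `T_d^n x = x` for some `1 ≤ n ≤ L`. -/
noncomputable def P (L D : ℝ) : ℕ :=
  Nat.card {d : ℕ // Odd d ∧ (d : ℝ) ≤ D ∧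
    ∃ x : ℤ, IsCoprime x d ∧ ∃ n : ℕ, 1 ≤ n ∧ (n : ℝ) ≤ L ∧ (T d)^[n] x = x}

/-- `Q(L, M, D)`: the number of the odd positive integers `d ≤ D` for which there is an integer `x` with
`T_d^n x = x` for some `1 ≤ n ≤ L` and `d / gcd (x, d) > M`. -/
noncomputable def Q (L M D : ℝ) : ℕ :=
  Nat.card {d : ℕ // Odd d ∧ (d : ℝ) ≤ D ∧
    ∃ x : ℤ, (∃ n : ℕ, 1 ≤ n ∧ (n : ℝ) ≤ L ∧ (T d)^[n] x = x) ∧ M * (Int.gcd x d : ℝ) < d}

/-- Bounds for the number `P(L, D)` of the odd `d ≤ D` such that `T_d` has a primitive cycle with at most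
`L` elements, for all `L`, for `L = D^θ` and for `L = (log D)^α`; and for the number of the odd `d ≤ D` for
which `T_d` has a cycle with at most `D^(δ/(48 log log D))` elements that does not come from a divisor
`m ≤ D^δ` of `d`. -/
theorem ranges :
    (∃ C : ℝ, ∀ D L : ℝ, 1 ≤ D → 2 ≤ L → (P L D : ℝ) ≤ C * D ^ (1 - 1 / (24 * Real.log L))) ∧
    (∀ θ ε : ℝ, 0 < θ → θ < 1 / 3 → 0 < ε →
      ∃ D₀ : ℝ, ∀ D ≥ D₀, (P (D ^ θ) D : ℝ) ≤ (θ + ε) * D) ∧
    (∀ α ε : ℝ, 1 ≤ α → 0 < ε →
      ∃ D₀ : ℝ, ∀ D ≥ D₀, (P (Real.log D ^ α) D : ℝ) ≤ D ^ (1 - 1 / α + ε)) ∧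
    (∀ δ ε : ℝ, 0 < δ → 0 < ε →
      ∃ D₀ : ℝ, ∀ D ≥ D₀,
        (Q (D ^ (δ / (48 * Real.log (Real.log D)))) (D ^ δ) D : ℝ) ≤ ε * D) := by
  refine ⟨?_, ?_, ?_, ?_⟩
  · obtain ⟨C, -, h⟩ := Pool.Agent.N43.SC.part_a
    exact ⟨C, h⟩
  · exact Pool.Agent.N43.SC.part_b
  · exact Pool.Agent.N43.SC.part_c
  · exact Pool.Agent.N43.SC.part_d

end Pool.Agent.N43.SC.Ranges
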