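import Pool.Agent.N43.SC.All

set_option autoImplicit false

/-! # A uniform bound for the short cycles which do not come from small divisors

The geometric series over the dyadic blocks removes the factor `log D` of `card_ZL`. Author: helper43. -/

namespace Pool.Agent.N43.SC

open Finset Filter Topology

/-- `1 - 2^(-η) ≥ η / 3` for `0 ≤ η ≤ 1`. -/
lemma one_sub_two_rpow {η : ℝ} (h0 : 0 ≤ η) (h1 : η ≤ 1) : η / 3 ≤ 1 - (2 : ℝ) ^ (-η) := by
  have hl2 := Real.log_two_gt_d9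
  have hl2' := Real.log_two_lt_d9
  have h2 : (2 : ℝ) ^ (-η) = Real.exp (-(η * Real.log 2)) := by
    rw [Real.rpow_def_of_pos (by norm_num)]
    congr 1
    ring
  set y := η * Real.log 2 with hy
  have hy0 : 0 ≤ y := by positivity
  have hy1 : y ≤ 1 := by nlinarith
  have h3 : Real.exp (-y) ≤ 1 / (1 + y) := by
    rw [Real.exp_neg, ← one_div]
    exact one_div_le_one_div_of_le (by linarith) (by linarith [Real.add_one_le_exp y])
  have h4 : 1 / (1 + y) ≤ 1 - y / 2 := by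
    rw [div_le_iff₀ (by linarith)]
    nlinarith
  rw [h2]
  have : η / 3 ≤ y / 2 := by
    rw [hy]
    nlinarith
  linarith

/-- the tail of the geometric series over the dyadic blocks above `M` -/
lemma dyadic_tail {η M : ℝ} (h0 : 0 < η) (h1 : η ≤ 1) (hM : 0 < M) (n : ℕ) :
    ∑ j ∈ (range n).filter (fun j : ℕ => M ≤ ((2 ^ (j + 1) : ℕ) : ℝ)),
      (((2 ^ (j + 1) : ℕ) : ℝ)) ^ (-η) ≤ 3 / η * M ^ (-η) := by
  classical
  set S := (range n).filter (fun j : ℕ => M ≤ ((2 ^ (j + 1) : ℕ) : ℝ)) with hS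
  rcases S.eq_empty_or_nonempty with he | hne
  · rw [he, sum_empty]
    positivity
  set j0 := S.min' hne with hj0
  have hj0S : j0 ∈ S := S.min'_mem hne
  set r : ℝ := (2 : ℝ) ^ (-η) with hr
  have hr0 : 0 < r := by rw [hr]; positivity
  have hgap := one_sub_two_rpow h0.le h1
  rw [← hr] at hgap
  have hr1 : r < 1 := by
    have : 0 < η / 3 := by positivity
    linarith
  have hpow : ∀ j : ℕ, (((2 ^ (j + 1) : ℕ) : ℝ)) ^ (-η) = r ^ (j + 1) := by
    intro j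
    push_cast
    rw [hr, ← Real.rpow_natCast, ← Real.rpow_natCast, ← Real.rpow_mul (by norm_num),
      ← Real.rpow_mul (by norm_num), mul_comm]
  have hsub : S ⊆ Ico j0 n := by
    intro j hj
    rw [mem_Ico]
    exact ⟨S.min'_le j hj, mem_range.1 (mem_filter.1 hj).1⟩
  have hM2 : M ≤ ((2 ^ (j0 + 1) : ℕ) : ℝ) := (mem_filter.1 hj0S).2
  have h5 : r ^ (j0 + 1) ≤ M ^ (-η) := by
    rw [← hpow]
    exact Real.rpow_le_rpow_of_nonpos hM hM2 (by linarith)
  calc ∑ j ∈ S, (((2 ^ (j + 1) : ℕ) : ℝ)) ^ (-η) = ∑ j ∈ S, r ^ (j + 1) :=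
        sum_congr rfl fun j _ => hpow j
    _ ≤ ∑ j ∈ Ico j0 n, r ^ (j + 1) :=
        sum_le_sum_of_subset_of_nonneg hsub fun _ _ _ => by positivity
    _ = r * ∑ j ∈ Ico j0 n, r ^ j := by
        rw [mul_sum]
        exact sum_congr rfl fun j _ => by rw [pow_succ, mul_comm]
    _ ≤ r * (r ^ j0 / (1 - r)) :=
        mul_le_mul_of_nonneg_left (geom_sum_Ico_le_of_lt_one hr0.le hr1) hr0.le
    _ = r ^ (j0 + 1) / (1 - r) := by rw [pow_succ]; ring
    _ ≤ M ^ (-η) / (η / 3) := by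
        refine div_le_div₀ (by positivity) h5 (by positivity) hgap
    _ = 3 / η * M ^ (-η) := by field_simp

/-- `card_ZL` without the factor `log x`. -/
theorem card_ZL' : ∃ C : ℝ, 0 < C ∧ ∀ (L x : ℕ) (M : ℝ), 0 < M →
    ((ZL L x M).card : ℝ) ≤ C * Real.log ((2 * L ^ 3 : ℕ) + 3) * x *
      M ^ (-(1 / (4 * Real.log ((2 * L ^ 3 : ℕ) + 3)))) := by
  classical
  obtain ⟨C, hC, h⟩ := AL_first
  refine ⟨24 * C, by positivity, fun L x M hM => ?_⟩
  set l := Real.log ((2 * L ^ 3 : ℕ) + 3) with hl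
  have hl1 : 1 ≤ l := by
    rw [hl, Real.le_log_iff_exp_le (by positivity)]
    have h1 := Real.exp_one_lt_d9
    have h2 : (0 : ℝ) ≤ ((2 * L ^ 3 : ℕ) : ℝ) := by positivity
    linarith
  set η := 1 / (4 * l) with hη
  have hη0 : 0 < η := by positivity
  have hη1 : η ≤ 1 := by
    rw [hη, div_le_one (by positivity)]
    linarith
  set B := (AL L x).filter (fun m : ℕ => M < (m : ℝ)) with hB
  have h1 : ZL L x M ⊆ B.biUnion fun m => (Ioc 0 x).filter fun d => m ∣ d := by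
    intro d hd
    rw [mem_ZL] at hd
    obtain ⟨hd, m, hmd, hMm, hodd, hs⟩ := hd
    have hm0 : 1 ≤ m := hodd.pos
    rw [mem_biUnion]
    refine ⟨m, ?_, ?_⟩
    · rw [hB, mem_filter, mem_AL]
      exact ⟨⟨⟨hm0, (Nat.le_of_dvd (by omega) hmd).trans hd.2⟩, hodd, hs⟩, hMm⟩
    · rw [mem_filter, mem_Ioc]
      exact ⟨⟨by omega, hd.2⟩, hmd⟩
  have h2 : ((ZL L x M).card : ℝ) ≤ ∑ m ∈ B, (x : ℝ) / m := by
    have h3 := (card_le_card h1).trans card_biUnion_le
    have h4 : ((ZL L x M).card : ℝ) ≤ ∑ m ∈ B, (((Ioc 0 x).filter fun d => m ∣ d).card : ℝ) := by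
      exact_mod_cast h3
    refine h4.trans (sum_le_sum fun m _ => ?_)
    rw [Nat.Ioc_filter_dvd_card_eq_div]
    exact Nat.cast_div_le
  refine h2.trans ?_
  set S := (range (Nat.log 2 x + 1)).filter (fun j : ℕ => M ≤ ((2 ^ (j + 1) : ℕ) : ℝ)) with hS
  have hmaps : ∀ m ∈ B, Nat.log 2 m ∈ S := by
    intro m hm
    rw [hB, mem_filter, mem_AL] at hm
    rw [hS, mem_filter, mem_range]
    have h5 := Nat.log_mono_right (b := 2) hm.1.1.2
    have h6 : m < 2 ^ (Nat.log 2 m + 1) := Nat.lt_pow_succ_log_self (by norm_num) m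
    have h7 : (m : ℝ) < ((2 ^ (Nat.log 2 m + 1) : ℕ) : ℝ) := by exact_mod_cast h6
    exact ⟨by omega, (hm.2.trans h7).le⟩
  rw [← sum_fiberwise_of_maps_to hmaps]
  have hblock : ∀ j ∈ S, ∑ m ∈ B with Nat.log 2 m = j, (x : ℝ) / m ≤
      2 * C * x * (((2 ^ (j + 1) : ℕ) : ℝ)) ^ (-η) := by
    intro j _
    have hmem : ∀ m ∈ B.filter (fun m => Nat.log 2 m = j),
        2 ^ j ≤ m ∧ m ≤ 2 ^ (j + 1) ∧ m ∈ AL L x := by
      intro m hm
      rw [mem_filter, hB, mem_filter] at hm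
      obtain ⟨⟨ha, -⟩, hj⟩ := hm
      have hm1 : 1 ≤ m := (mem_AL.1 ha).1.1
      refine ⟨?_, ?_, ha⟩
      · rw [← hj]
        exact Nat.pow_log_le_self 2 (by omega)
      · rw [← hj]
        exact (Nat.lt_pow_succ_log_self (by norm_num) m).le
    have hcard : ((B.filter fun m => Nat.log 2 m = j).card : ℝ) ≤
        C * ((2 ^ (j + 1) : ℕ) : ℝ) ^ (1 - η) := by
      refine le_trans ?_ (h L (2 ^ (j + 1)))
      have : (B.filter fun m => Nat.log 2 m = j) ⊆ AL L (2 ^ (j + 1)) := by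
        intro m hm
        obtain ⟨-, h5, h6⟩ := hmem m hm
        rw [mem_AL] at h6 ⊢
        exact ⟨⟨h6.1.1, h5⟩, h6.2⟩
      exact_mod_cast card_le_card this
    set P : ℝ := ((2 ^ (j + 1) : ℕ) : ℝ) with hP
    have hP0 : 0 < P := by rw [hP]; positivity
    have hPj : P = 2 * (2 : ℝ) ^ j := by
      rw [hP]
      push_cast
      ring
    calc ∑ m ∈ B with Nat.log 2 m = j, (x : ℝ) / m
        ≤ ∑ m ∈ B with Nat.log 2 m = j, (x : ℝ) / (2 : ℝ) ^ j := by
          refine sum_le_sum fun m hm => ?_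
          refine div_le_div_of_nonneg_left (by positivity) (by positivity) ?_
          exact_mod_cast (hmem m hm).1
      _ = ((B.filter fun m => Nat.log 2 m = j).card : ℝ) * ((x : ℝ) / (2 : ℝ) ^ j) := by
          rw [sum_const, nsmul_eq_mul]
      _ ≤ C * P ^ (1 - η) * ((x : ℝ) / (2 : ℝ) ^ j) :=
          mul_le_mul_of_nonneg_right hcard (by positivity)
      _ = 2 * C * x * P ^ (-η) := by
          have h7 : P ^ (1 - η) = P * P ^ (-η) := by
            rw [sub_eq_add_neg, Real.rpow_add hP0, Real.rpow_one]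
          rw [h7, hPj]
          field_simp
  calc ∑ j ∈ S, ∑ m ∈ B with Nat.log 2 m = j, (x : ℝ) / m
      ≤ ∑ j ∈ S, 2 * C * x * (((2 ^ (j + 1) : ℕ) : ℝ)) ^ (-η) := sum_le_sum hblock
    _ = 2 * C * x * ∑ j ∈ S, (((2 ^ (j + 1) : ℕ) : ℝ)) ^ (-η) := by rw [mul_sum]
    _ ≤ 2 * C * x * (3 / η * M ^ (-η)) :=
        mul_le_mul_of_nonneg_left (dyadic_tail hη0 hη1 hM _) (by positivity)
    _ = 24 * C * l * x * M ^ (-η) := by
        rw [hη]
        field_simp
        ring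

/-- **The uniform bound.** -/
theorem uniform : ∃ C : ℝ, 0 < C ∧ ∀ D L M : ℝ, 1 ≤ D → 2 ≤ L → 1 ≤ M →
    (cntAll L M D : ℝ) ≤ C * Real.log L * D * M ^ (-(1 / (24 * Real.log L))) := by
  obtain ⟨C, hC, h⟩ := card_ZL'
  refine ⟨6 * C, by positivity, fun D L M hD hL hM => ?_⟩
  have h1 : (cntAll L M D : ℝ) ≤ ((ZL ⌊L⌋₊ ⌊D⌋₊ M).card : ℝ) := by
    exact_mod_cast cntAll_le (by linarith) (by linarith)
  refine h1.trans ((h _ _ _ (by linarith)).trans ?_)
  set l := Real.log ((2 * ⌊L⌋₊ ^ 3 : ℕ) + 3) with hl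
  have hfl : (⌊L⌋₊ : ℝ) ≤ L := Nat.floor_le (by linarith)
  have hpos : (3 : ℝ) ≤ ((2 * ⌊L⌋₊ ^ 3 : ℕ) : ℝ) + 3 := by
    have : (0 : ℝ) ≤ ((2 * ⌊L⌋₊ ^ 3 : ℕ) : ℝ) := by positivity
    linarith
  have hl6 : ((2 * ⌊L⌋₊ ^ 3 : ℕ) : ℝ) + 3 ≤ L ^ 6 := by
    have h2 : (⌊L⌋₊ : ℝ) ^ 3 ≤ L ^ 3 := pow_le_pow_left₀ (by positivity) hfl 3
    have h3 : (8 : ℝ) ≤ L ^ 3 := by
      calc (8 : ℝ) = 2 ^ 3 := by norm_num
        _ ≤ L ^ 3 := pow_le_pow_left₀ (by norm_num) hL 3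
    push_cast
    nlinarith
  have hlL : l ≤ 6 * Real.log L := by
    have := Real.log_le_log (by linarith) hl6
    rwa [Real.log_pow] at this
  have hl1 : 1 ≤ l := by
    rw [hl, Real.le_log_iff_exp_le (by linarith)]
    have := Real.exp_one_lt_d9
    linarith
  have hL0 : 0 < Real.log L := Real.log_pos (by linarith)
  have hexp : -(1 / (4 * l)) ≤ -(1 / (24 * Real.log L)) := by
    rw [neg_le_neg_iff]
    exact one_div_le_one_div_of_le (by linarith) (by linarith)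
  have hpw : M ^ (-(1 / (4 * l))) ≤ M ^ (-(1 / (24 * Real.log L))) :=
    Real.rpow_le_rpow_of_exponent_le hM hexp
  have hflD : (⌊D⌋₊ : ℝ) ≤ D := Nat.floor_le (by linarith)
  calc C * l * (⌊D⌋₊ : ℝ) * M ^ (-(1 / (4 * l)))
      ≤ C * (6 * Real.log L) * D * M ^ (-(1 / (24 * Real.log L))) := by
        refine mul_le_mul ?_ hpw (by positivity) (by positivity)
        exact mul_le_mul (mul_le_mul_of_nonneg_left hlL hC.le) hflD (by positivity) (by positivity)
    _ = 6 * C * Real.log L * D * M ^ (-(1 / (24 * Real.log L))) := by ring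

end Pool.Agent.N43.SC
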